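import Mathlib
set_option autoImplicit false

/-!
# One-sided two-symbol EOL forms are not EOL-complete

Outline.  Let `G'` be an interpretation of a one-sided form and suppose that `L(G')` is the witness
language `W` (palindromes `u c u^R` over `{a, b}` and the words `e^(2^n)`, `e = a, b, c`).

* `no_stable`: no letter `e` of `W` satisfies `e =>^q e` with `q ≥ 1`, since otherwise all yields
  inside a derivation of `e^(2^n)` would be bounded.
* `idle_bound`: the times at which a symbol derives a terminal word are ultimately periodic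
  (`Uset_periodic`), so a terminal symbol that occurs in a derivation of a word of `W` and idles for
  long passes through the same letter of `W` twice, against `no_stable`.
* `yield_bound`: hence a terminal symbol with `s` steps left has a yield of length at least `s / K`.
* `spine`: consider the path to the centre letter of a palindrome.  Every level of the path with a
  left sibling, except for at most one more than half of them, has a terminal sibling, which costs
  `s / K` letters; so there are only `O(sqrt n)` such levels, at times `O(n)`, and the left half of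
  the palindrome is determined by the left siblings and their times.
* `core`: there are too few such lists for the `2 ^ n` palindromes of length `2 n + 1`.
* `wit_lang`: the witness language is an EOL language.
-/

namespace Pool.Agent.Results.MP_87252e_lc.OneSided

section

/-- An EOL grammar.  Symbols are natural numbers, `V` is the alphabet, `T` the terminal alphabet,
`P` the finite set of productions `X → α` (as pairs `(X, α)`), `S` the start symbol.  Every symbol
of `V` has at least one production. -/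
structure EOL where
  V : Finset ℕ
  T : Finset ℕ
  P : Finset (ℕ × List ℕ)
  S : ℕ
  T_sub : T ⊆ V
  S_mem : S ∈ V
  S_notMem : S ∉ T
  P_sub : ∀ r ∈ P, r.1 ∈ V ∧ ∀ x ∈ r.2, x ∈ V
  total : ∀ x ∈ V, ∃ α, (x, α) ∈ P

/-- One derivation step: every symbol of the word `u` is rewritten by some production; `l` lists the
productions used, from left to right. -/
def EOL.Step (G : EOL) (u v : List ℕ) : Prop :=
  ∃ l : List (ℕ × List ℕ), (∀ r ∈ l, r ∈ G.P) ∧ u = l.map Prod.fst ∧ v = (l.map Prod.snd).flatten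

/-- The language `L(G)`: all words over the terminal alphabet derivable from `S`. -/
def EOL.lang (G : EOL) : Set (List ℕ) :=
  {w | (∀ x ∈ w, x ∈ G.T) ∧ Relation.ReflTransGen G.Step [G.S] w}

/-- `H` is an interpretation of the form `G`. -/
def Interp (G H : EOL) : Prop :=
  ∃ μ : ℕ → Finset ℕ,
    (∀ b ∈ G.T, μ b ⊆ H.T) ∧
    (∀ A ∈ G.V \ G.T, μ A ⊆ H.V \ H.T) ∧
    (∀ X ∈ G.V, ∀ Y ∈ G.V, X ≠ Y → Disjoint (μ X) (μ Y)) ∧
    (∀ r ∈ H.P, ∃ q ∈ G.P, r.1 ∈ μ q.1 ∧ List.Forall₂ (fun y x => y ∈ μ x) r.2 q.2) ∧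
    H.S ∈ μ G.S

/-- Two languages that differ at most by the empty word. -/
def EqMod (L M : Set (List ℕ)) : Prop := ∀ w, w ≠ [] → (w ∈ L ↔ w ∈ M)

/-- The form `G` is EOL-complete: the family of languages of its interpretations equals the family
of EOL languages (languages are identified when they differ at most by the empty word). -/
def EOLComplete (G : EOL) : Prop :=
  (∀ H : EOL, ∃ G' : EOL, Interp G G' ∧ EqMod H.lang G'.lang) ∧
  (∀ G' : EOL, Interp G G' → ∃ H : EOL, EqMod G'.lang H.lang)

variable {G : EOL}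

theorem step_nil {w : List ℕ} : G.Step [] w ↔ w = [] := by
  constructor
  · rintro ⟨l, _, h2, h3⟩
    have : l = [] := by
      cases l with
      | nil => rfl
      | cons a l => simp at h2
    rw [this] at h3
    exact h3
  · rintro rfl
    exact ⟨[], by simp, rfl, rfl⟩

theorem step_cons {x : ℕ} {u w : List ℕ} :
    G.Step (x :: u) w ↔ ∃ α w', (x, α) ∈ G.P ∧ G.Step u w' ∧ w = α ++ w' := by
  constructor
  · rintro ⟨l, h1, h2, h3⟩
    cases l with
    | nil => simp at h2
    | cons r l =>
      rw [List.map_cons, List.cons.injEq] at h2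
      refine ⟨r.2, (l.map Prod.snd).flatten, ?_, ⟨l, fun r' hr' => h1 r' (List.mem_cons_of_mem _ hr'),
        h2.2, rfl⟩, ?_⟩
      · rw [h2.1]
        exact h1 r List.mem_cons_self
      · rw [h3, List.map_cons, List.flatten_cons]
  · rintro ⟨α, w', h1, ⟨l, k1, k2, k3⟩, rfl⟩
    refine ⟨(x, α) :: l, ?_, ?_, ?_⟩
    · intro r hr
      rcases List.mem_cons.mp hr with h | h
      · rw [h]; exact h1
      · exact k1 r h
    · rw [List.map_cons, k2]
    · rw [List.map_cons, List.flatten_cons, k3]

theorem step_append {u v w : List ℕ} :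
    G.Step (u ++ v) w ↔ ∃ w1 w2, G.Step u w1 ∧ G.Step v w2 ∧ w = w1 ++ w2 := by
  induction u generalizing w with
  | nil =>
    rw [List.nil_append]
    constructor
    · intro h
      exact ⟨[], w, step_nil.mpr rfl, h, rfl⟩
    · rintro ⟨w1, w2, h1, h2, rfl⟩
      rw [step_nil.mp h1]
      exact h2
  | cons x u ih =>
    rw [List.cons_append, step_cons]
    constructor
    · rintro ⟨α, w', h1, h2, rfl⟩
      obtain ⟨w1, w2, k1, k2, rfl⟩ := ih.mp h2
      exact ⟨α ++ w1, w2, step_cons.mpr ⟨α, w1, h1, k1, rfl⟩, k2, by rw [List.append_assoc]⟩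
    · rintro ⟨w1, w2, h1, h2, rfl⟩
      obtain ⟨α, w', k1, k2, rfl⟩ := step_cons.mp h1
      exact ⟨α, w' ++ w2, k1, ih.mpr ⟨w', w2, k2, h2, rfl⟩, by rw [List.append_assoc]⟩

theorem step_single {x : ℕ} {w : List ℕ} : G.Step [x] w ↔ (x, w) ∈ G.P := by
  rw [step_cons]
  constructor
  · rintro ⟨α, w', h1, h2, rfl⟩
    rw [step_nil.mp h2, List.append_nil]
    exact h1
  · intro h
    exact ⟨w, [], h, step_nil.mpr rfl, (List.append_nil _).symm⟩

/-- `t` derivation steps. -/
def EOL.Steps (G : EOL) : ℕ → List ℕ → List ℕ → Prop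
  | 0, u, w => u = w
  | t + 1, u, w => ∃ v, G.Step u v ∧ G.Steps t v w

theorem steps_nil {t : ℕ} {w : List ℕ} : G.Steps t [] w ↔ w = [] := by
  induction t generalizing w with
  | zero => exact eq_comm
  | succ t ih =>
    constructor
    · rintro ⟨v, h1, h2⟩
      rw [step_nil.mp h1] at h2
      exact ih.mp h2
    · rintro rfl
      exact ⟨[], step_nil.mpr rfl, ih.mpr rfl⟩

theorem steps_append {t : ℕ} {u v w : List ℕ} :
    G.Steps t (u ++ v) w ↔ ∃ w1 w2, G.Steps t u w1 ∧ G.Steps t v w2 ∧ w = w1 ++ w2 := by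
  induction t generalizing u v w with
  | zero =>
    constructor
    · rintro rfl
      exact ⟨u, v, rfl, rfl, rfl⟩
    · rintro ⟨w1, w2, rfl, rfl, rfl⟩
      rfl
  | succ t ih =>
    constructor
    · rintro ⟨z, h1, h2⟩
      obtain ⟨z1, z2, k1, k2, rfl⟩ := step_append.mp h1
      obtain ⟨w1, w2, l1, l2, rfl⟩ := ih.mp h2
      exact ⟨w1, w2, ⟨z1, k1, l1⟩, ⟨z2, k2, l2⟩, rfl⟩
    · rintro ⟨w1, w2, ⟨z1, k1, l1⟩, ⟨z2, k2, l2⟩, rfl⟩
      exact ⟨z1 ++ z2, step_append.mpr ⟨z1, z2, k1, k2, rfl⟩, ih.mpr ⟨w1, w2, l1, l2, rfl⟩⟩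

theorem steps_succ_single {t x : ℕ} {w : List ℕ} :
    G.Steps (t + 1) [x] w ↔ ∃ α, (x, α) ∈ G.P ∧ G.Steps t α w := by
  constructor
  · rintro ⟨v, h1, h2⟩
    exact ⟨v, step_single.mp h1, h2⟩
  · rintro ⟨v, h1, h2⟩
    exact ⟨v, step_single.mpr h1, h2⟩

theorem steps_add {s t : ℕ} {u w : List ℕ} :
    G.Steps (s + t) u w ↔ ∃ v, G.Steps s u v ∧ G.Steps t v w := by
  induction s generalizing u with
  | zero =>
    rw [zero_add]
    constructor
    · intro h; exact ⟨u, rfl, h⟩
    · rintro ⟨v, rfl, h⟩; exact h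
  | succ s ih =>
    rw [show s + 1 + t = (s + t) + 1 by ring]
    constructor
    · rintro ⟨z, h1, h2⟩
      obtain ⟨v, k1, k2⟩ := ih.mp h2
      exact ⟨v, ⟨z, h1, k1⟩, k2⟩
    · rintro ⟨v, ⟨z, h1, k1⟩, k2⟩
      exact ⟨z, h1, ih.mpr ⟨v, k1, k2⟩⟩

theorem steps_one {u w : List ℕ} : G.Steps 1 u w ↔ G.Step u w := by
  constructor
  · rintro ⟨v, h1, rfl⟩; exact h1
  · intro h; exact ⟨w, h, rfl⟩

theorem reach_iff {u w : List ℕ} :
    Relation.ReflTransGen G.Step u w ↔ ∃ t, G.Steps t u w := by
  constructor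
  · intro h
    induction h with
    | refl => exact ⟨0, rfl⟩
    | tail _ h2 ih =>
      obtain ⟨t, ht⟩ := ih
      exact ⟨t + 1, steps_add.mpr ⟨_, ht, steps_one.mpr h2⟩⟩
  · rintro ⟨t, ht⟩
    induction t generalizing u with
    | zero => rw [show u = w from ht]
    | succ t ih =>
      obtain ⟨v, h1, h2⟩ := ht
      exact Relation.ReflTransGen.head h1 (ih h2)

/-- A word of the alphabet stays in the alphabet. -/
theorem step_mem {u w : List ℕ} (h : G.Step u w) : ∀ x ∈ w, x ∈ G.V := by
  obtain ⟨l, h1, _, rfl⟩ := h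
  intro x hx
  rw [List.mem_flatten] at hx
  obtain ⟨α, hα, hx⟩ := hx
  obtain ⟨r, hr, rfl⟩ := List.mem_map.mp hα
  exact (G.P_sub r (h1 r hr)).2 x hx

theorem steps_mem {t : ℕ} {u w : List ℕ} (h : G.Steps t u w) (hu : ∀ x ∈ u, x ∈ G.V) :
    ∀ x ∈ w, x ∈ G.V := by
  induction t generalizing u with
  | zero => rw [← show u = w from h]; exact hu
  | succ t ih =>
    obtain ⟨v, h1, h2⟩ := h
    exact ih h2 (step_mem h1)

/-- Length does not decrease when there are no erasing productions. -/
theorem step_length (h0 : ∀ r ∈ G.P, r.2 ≠ []) {u w : List ℕ} (h : G.Step u w) :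
    u.length ≤ w.length := by
  induction u generalizing w with
  | nil => simp
  | cons x u ih =>
    obtain ⟨α, w', h1, h2, rfl⟩ := step_cons.mp h
    have h3 := ih h2
    have h4 : 0 < α.length := List.length_pos_iff.mpr (h0 _ h1)
    rw [List.length_cons, List.length_append]
    omega

theorem steps_length (h0 : ∀ r ∈ G.P, r.2 ≠ []) {t : ℕ} {u w : List ℕ} (h : G.Steps t u w) :
    u.length ≤ w.length := by
  induction t generalizing u with
  | zero => rw [show u = w from h]
  | succ t ih =>
    obtain ⟨v, h1, h2⟩ := h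
    exact (step_length h0 h1).trans (ih h2)

/-- Length grows at most exponentially. -/
theorem step_length_le {d : ℕ} (hd : ∀ r ∈ G.P, r.2.length ≤ d) {u w : List ℕ} (h : G.Step u w) :
    w.length ≤ d * u.length := by
  induction u generalizing w with
  | nil => rw [step_nil.mp h]; simp
  | cons x u ih =>
    obtain ⟨α, w', h1, h2, rfl⟩ := step_cons.mp h
    have h3 := ih h2
    have h4 := hd _ h1
    rw [List.length_cons, List.length_append, mul_add]
    simp only at h4
    omega

theorem steps_length_le {d : ℕ} (hd : ∀ r ∈ G.P, r.2.length ≤ d) {t : ℕ} {u w : List ℕ}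
    (h : G.Steps t u w) : w.length ≤ d ^ t * u.length := by
  induction t generalizing u with
  | zero => rw [show u = w from h]; simp
  | succ t ih =>
    obtain ⟨v, h1, h2⟩ := h
    calc w.length ≤ d ^ t * v.length := ih h2
      _ ≤ d ^ t * (d * u.length) := Nat.mul_le_mul_left _ (step_length_le hd h1)
      _ = d ^ (t + 1) * u.length := by ring

open Classical in
/-- The symbols that derive a word over `U` in one step. -/
noncomputable def nextU (G : EOL) (U : Finset ℕ) : Finset ℕ :=
  G.V.filter (fun X => ∃ α, (X, α) ∈ G.P ∧ ∀ z ∈ α, z ∈ U)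

/-- `Uset t`: the symbols that derive a terminal word in `t` steps. -/
noncomputable def Uset (G : EOL) : ℕ → Finset ℕ
  | 0 => G.T
  | t + 1 => nextU G (Uset G t)

theorem Uset_sub (t : ℕ) : Uset G t ⊆ G.V := by
  cases t with
  | zero => exact G.T_sub
  | succ t =>
    classical
    exact Finset.filter_subset _ _

theorem mem_Uset_succ {t X : ℕ} :
    X ∈ Uset G (t + 1) ↔ ∃ α, (X, α) ∈ G.P ∧ ∀ z ∈ α, z ∈ Uset G t := by
  classical
  show X ∈ nextU G (Uset G t) ↔ _
  unfold nextU
  rw [Finset.mem_filter]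
  constructor
  · exact fun h => h.2
  · rintro ⟨α, h1, h2⟩
    exact ⟨(G.P_sub _ h1).1, α, h1, h2⟩

theorem word_of_Uset {t : ℕ} {u : List ℕ} (hu : ∀ x ∈ u, x ∈ Uset G t) :
    ∃ w, (∀ z ∈ w, z ∈ G.T) ∧ G.Steps t u w := by
  induction t generalizing u with
  | zero => exact ⟨u, hu, rfl⟩
  | succ t ih =>
    have : ∃ v, G.Step u v ∧ ∀ x ∈ v, x ∈ Uset G t := by
      clear ih
      induction u with
      | nil => exact ⟨[], step_nil.mpr rfl, by simp⟩
      | cons x u ih2 =>
        obtain ⟨v, h1, h2⟩ := ih2 (fun y hy => hu y (List.mem_cons_of_mem _ hy))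
        obtain ⟨α, k1, k2⟩ := mem_Uset_succ.mp (hu x List.mem_cons_self)
        refine ⟨α ++ v, step_cons.mpr ⟨α, v, k1, h1, rfl⟩, ?_⟩
        intro y hy
        rcases List.mem_append.mp hy with h | h
        · exact k2 y h
        · exact h2 y h
    obtain ⟨v, h1, h2⟩ := this
    obtain ⟨w, k1, k2⟩ := ih h2
    exact ⟨w, k1, v, h1, k2⟩

theorem Uset_of_word {t : ℕ} {u w : List ℕ} (h : G.Steps t u w) (hw : ∀ z ∈ w, z ∈ G.T) :
    ∀ x ∈ u, x ∈ Uset G t := by
  induction t generalizing u with
  | zero => rw [show u = w from h]; exact hw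
  | succ t ih =>
    obtain ⟨v, h1, h2⟩ := h
    have h3 := ih h2
    clear ih h2
    induction u generalizing v with
    | nil => simp
    | cons x u ih2 =>
      obtain ⟨α, w', k1, k2, rfl⟩ := step_cons.mp h1
      intro y hy
      rcases List.mem_cons.mp hy with h | h
      · rw [h, mem_Uset_succ]
        exact ⟨α, k1, fun z hz => h3 z (List.mem_append_left _ hz)⟩
      · exact ih2 w' k2 (fun z hz => h3 z (List.mem_append_right _ hz)) y h

theorem Uset_step {s t : ℕ} (h : Uset G s = Uset G t) : Uset G (s + 1) = Uset G (t + 1) := by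
  ext X
  rw [mem_Uset_succ, mem_Uset_succ, h]

theorem Uset_periodic (G : EOL) :
    ∃ s0 p : ℕ, 1 ≤ p ∧ ∀ t j, s0 ≤ t → Uset G (t + p * j) = Uset G t := by
  classical
  obtain ⟨i, j, hij, heq⟩ : ∃ i j : ℕ, i < j ∧ Uset G i = Uset G j := by
    have hfin : (Set.range (Uset G)).Finite := by
      apply Set.Finite.subset (G.V.powerset : Finset (Finset ℕ)).finite_toSet
      rintro _ ⟨t, rfl⟩
      exact Finset.mem_coe.mpr (Finset.mem_powerset.mpr (Uset_sub t))
    have hninj : ¬ Function.Injective (Uset G) := by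
      intro hinj
      exact (Set.infinite_range_of_injective hinj) hfin
    rw [Function.Injective] at hninj
    push Not at hninj
    obtain ⟨a, b, h1, h2⟩ := hninj
    rcases lt_or_gt_of_ne h2 with h | h
    · exact ⟨a, b, h, h1⟩
    · exact ⟨b, a, h, h1.symm⟩
  refine ⟨i, j - i, by omega, ?_⟩
  have key : ∀ k, Uset G (i + k + (j - i)) = Uset G (i + k) := by
    intro k
    induction k with
    | zero =>
      rw [add_zero, show i + (j - i) = j by omega]
      exact heq.symm
    | succ k ih =>
      have := Uset_step ih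
      rw [show i + (k + 1) + (j - i) = i + k + (j - i) + 1 by ring, this]
      rfl
  intro t m ht
  induction m with
  | zero => simp
  | succ m ih =>
    have := key (t - i + (j - i) * m)
    rw [show i + (t - i + (j - i) * m) = t + (j - i) * m by omega] at this
    rw [show t + (j - i) * (m + 1) = t + (j - i) * m + (j - i) by ring, this, ih]

end

section

/-- The witness language: palindromes `u c u^R` with `u` a word over `{a, b}`, and the words
`e^(2^n)` for `e = a, b, c` (`a = 1`, `b = 2`, `c = 3`). -/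
def W : Set (List ℕ) :=
  {w | (∃ u : List ℕ, (∀ x ∈ u, x = 1 ∨ x = 2) ∧ w = u ++ [3] ++ u.reverse) ∨
    ∃ e n : ℕ, 1 ≤ e ∧ e ≤ 3 ∧ w = List.replicate (2 ^ n) e}

/-- The properties of the grammar used in the proof. -/
structure Good (G : EOL) : Prop where
  c0 : ∀ r ∈ G.P, r.2 ≠ []
  c1 : ∀ r ∈ G.P, r.1 ∉ G.T → 2 ≤ r.2.length → ∃ z ∈ r.2, z ∈ G.T
  c2 : ∀ r ∈ G.P, r.1 ∈ G.T → ∃ z ∈ r.2, z ∈ G.T
  c3 : ∀ r ∈ G.P, ∀ (α1 : List ℕ) (z : ℕ) (α2 : List ℕ), r.1 ∈ G.T → r.2 = α1 ++ [z] ++ α2 →
    z ∈ G.T → α1 ≠ [] → ∃ y ∈ α1 ++ α2, y ∈ G.T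

variable {G : EOL}

theorem exists_len (G : EOL) : ∃ d : ℕ, 1 ≤ d ∧ ∀ r ∈ G.P, r.2.length ≤ d := by
  refine ⟨G.P.sup (fun r => r.2.length) + 1, by omega, ?_⟩
  intro r hr
  have := Finset.le_sup (f := fun r : ℕ × List ℕ => r.2.length) hr
  omega

/-- Powers of a letter in the witness language. -/
theorem W_replicate {e r : ℕ} (h : List.replicate r e ∈ W) : ∃ m, r = 2 ^ m := by
  rcases h with ⟨u, hu, h⟩ | ⟨e', n, h1, h2, h⟩
  · have h3 : ∀ x ∈ u ++ [3] ++ u.reverse, x = e := by
      intro x hx
      rw [← h] at hx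
      exact List.eq_of_mem_replicate hx
    have h4 : 3 = e := h3 3 (by simp)
    have h5 : u = [] := by
      cases u with
      | nil => rfl
      | cons x u =>
        have h6 := h3 x (by simp)
        rcases hu x List.mem_cons_self with h7 | h7 <;> omega
    rw [h5] at h
    have := congrArg List.length h
    simp at this
    exact ⟨0, by simpa using this⟩
  · have := congrArg List.length h
    rw [List.length_replicate, List.length_replicate] at this
    exact ⟨n, this⟩

theorem pow_cases {n m D : ℕ} (h : 2 * D < 2 ^ n) (h1 : 2 ^ m ≤ 2 ^ n + D) (h2 : 2 ^ n ≤ 2 ^ m + D) :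
    m = n := by
  rcases lt_trichotomy m n with h3 | h3 | h3
  · have h4 : 2 ^ (m + 1) ≤ 2 ^ n := Nat.pow_le_pow_right (by norm_num) h3
    rw [pow_succ] at h4
    omega
  · exact h3
  · have h4 : 2 ^ (n + 1) ≤ 2 ^ m := Nat.pow_le_pow_right (by norm_num) h3
    rw [pow_succ] at h4
    omega

theorem replicate_split {r e : ℕ} {w1 w2 : List ℕ} (h : List.replicate r e = w1 ++ w2) :
    ∃ r1 r2, w1 = List.replicate r1 e ∧ w2 = List.replicate r2 e ∧ r = r1 + r2 := by
  refine ⟨w1.length, w2.length, ?_, ?_, ?_⟩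
  · apply List.eq_replicate_of_mem
    intro b hb
    exact List.eq_of_mem_replicate (h ▸ List.mem_append_left _ hb)
  · apply List.eq_replicate_of_mem
    intro b hb
    exact List.eq_of_mem_replicate (h ▸ List.mem_append_right _ hb)
  · have := congrArg List.length h
    simpa using this

theorem steps_replicate {q e : ℕ} (h : G.Steps q [e] [e]) (r : ℕ) :
    G.Steps q (List.replicate r e) (List.replicate r e) := by
  induction r with
  | zero => exact steps_nil.mpr rfl
  | succ r ih =>
    rw [List.replicate_succ, show e :: List.replicate r e = [e] ++ List.replicate r e from rfl]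
    exact steps_append.mpr ⟨_, _, h, ih, rfl⟩

theorem steps_mul {q e : ℕ} (h : G.Steps q [e] [e]) (r j : ℕ) :
    G.Steps (q * j) (List.replicate r e) (List.replicate r e) := by
  induction j with
  | zero => rfl
  | succ j ih =>
    rw [Nat.mul_succ]
    exact steps_add.mpr ⟨_, ih, steps_replicate h r⟩

/-- Stable letters bound the yields inside words `e^(2^n)`. -/
theorem small_yield {q e n M d : ℕ} (hs : G.Steps q [e] [e])
    (hd : ∀ r ∈ G.P, r.2.length ≤ d) (hd1 : 1 ≤ d)
    (hM : ∀ X t r, X ∈ G.V → G.Steps t [X] (List.replicate r e) →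
      ∃ t0 r0, t0 ≤ M ∧ t0 ≤ t ∧ t0 % q = t % q ∧ G.Steps t0 [X] (List.replicate r0 e))
    (hn : 2 * (d * d ^ M) < 2 ^ n) :
    ∀ t X i j r, X ∈ G.V → (∀ r', G.Steps t [X] (List.replicate r' e) → ∃ m, i + r' + j = 2 ^ m) →
      G.Steps t [X] (List.replicate r e) → i + r + j = 2 ^ n → r ≤ d ^ M := by
  have hC : 1 ≤ d ^ M := Nat.one_le_pow _ _ hd1
  intro t
  induction t with
  | zero =>
    intro X i j r _ _ h _
    have : [X] = List.replicate r e := h
    have := congrArg List.length this
    rw [List.length_replicate, List.length_singleton] at this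
    omega
  | succ t ih =>
    intro X i j r hX hctx h hr
    -- list version
    have hlist : ∀ (β : List ℕ) (i j r : ℕ), (∀ z ∈ β, z ∈ G.V) →
        (∀ r', G.Steps t β (List.replicate r' e) → ∃ m, i + r' + j = 2 ^ m) →
        G.Steps t β (List.replicate r e) → i + r + j = 2 ^ n → r ≤ β.length * d ^ M := by
      intro β
      induction β with
      | nil =>
        intro i j r _ _ h _
        have := congrArg List.length (steps_nil.mp h)
        rw [List.length_replicate, List.length_nil] at this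
        omega
      | cons z β ihβ =>
        intro i j r hβ hctx h hr
        rw [show z :: β = [z] ++ β from rfl] at h
        obtain ⟨w1, w2, k1, k2, k3⟩ := steps_append.mp h
        obtain ⟨r1, r2, rfl, rfl, hr12⟩ := replicate_split k3
        have e1 := ih z i (r2 + j) r1 (hβ z List.mem_cons_self) (by
          intro r' h'
          obtain ⟨m, hm⟩ := hctx (r' + r2) (by
            rw [show z :: β = [z] ++ β from rfl, List.replicate_add]
            exact steps_append.mpr ⟨_, _, h', k2, rfl⟩)
          exact ⟨m, by omega⟩) k1 (by omega)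
        have e2 := ihβ (i + r1) j r2 (fun y hy => hβ y (List.mem_cons_of_mem _ hy)) (by
          intro r' h'
          obtain ⟨m, hm⟩ := hctx (r1 + r') (by
            rw [show z :: β = [z] ++ β from rfl, List.replicate_add]
            exact steps_append.mpr ⟨_, _, k1, h', rfl⟩)
          exact ⟨m, by omega⟩) k2 (by omega)
        rw [List.length_cons, add_mul, one_mul]
        omega
    obtain ⟨α, hα, h2⟩ := steps_succ_single.mp h
    have h3 : r ≤ d * d ^ M := by
      refine (hlist α i j r (G.P_sub _ hα).2 ?_ h2 hr).trans (Nat.mul_le_mul_right _ (hd _ hα))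
      intro r' h'
      exact hctx r' (steps_succ_single.mpr ⟨α, hα, h'⟩)
    obtain ⟨t0, r0, g1, g2, g3, g4⟩ := hM X (t + 1) r hX h
    have h4 : r0 ≤ d ^ M := by
      have := steps_length_le hd g4
      rw [List.length_replicate, List.length_singleton, mul_one] at this
      exact this.trans (Nat.pow_le_pow_right hd1 g1)
    have h5 : G.Steps (t + 1) [X] (List.replicate r0 e) := by
      have : t + 1 = t0 + q * ((t + 1 - t0) / q) := by
        have h6 : (t + 1 - t0) % q = 0 := by
          have := (Nat.modEq_iff_dvd' g2).mp g3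
          exact Nat.mod_eq_zero_of_dvd this
        have := Nat.div_add_mod (t + 1 - t0) q
        omega
      rw [this]
      exact steps_add.mpr ⟨_, g4, steps_mul hs r0 _⟩
    obtain ⟨m, hm⟩ := hctx r0 h5
    have h6 : d ^ M ≤ d * d ^ M := Nat.le_mul_of_pos_left _ hd1
    have h7 := pow_cases (n := n) (m := m) (D := d * d ^ M) (by omega) (by omega) (by omega)
    rw [h7] at hm
    omega

/-- No letter of the witness language reproduces itself. -/
theorem no_stable (hg : Good G) (hW : EqMod W G.lang) {e q : ℕ} (he : 1 ≤ e) (he3 : e ≤ 3)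
    (hq : 1 ≤ q) : ¬ G.Steps q [e] [e] := by
  classical
  intro hs
  obtain ⟨d, hd1, hd⟩ := exists_len G
  -- minimal times
  let f : ℕ × ℕ → ℕ := fun x => sInf {t | t % q = x.2 ∧ ∃ r, G.Steps t [x.1] (List.replicate r e)}
  set M := (G.V ×ˢ Finset.range q).sup f with hMdef
  have hM : ∀ X t r, X ∈ G.V → G.Steps t [X] (List.replicate r e) →
      ∃ t0 r0, t0 ≤ M ∧ t0 ≤ t ∧ t0 % q = t % q ∧ G.Steps t0 [X] (List.replicate r0 e) := by
    intro X t r hX h
    have hmem : t ∈ {s | s % q = t % q ∧ ∃ r, G.Steps s [X] (List.replicate r e)} :=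
      ⟨rfl, r, h⟩
    have h1 := Nat.sInf_mem ⟨t, hmem⟩
    obtain ⟨h2, r0, h3⟩ := h1
    refine ⟨_, r0, ?_, Nat.sInf_le hmem, h2, h3⟩
    have : (X, t % q) ∈ G.V ×ˢ Finset.range q :=
      Finset.mem_product.mpr ⟨hX, Finset.mem_range.mpr (Nat.mod_lt _ hq)⟩
    exact Finset.le_sup (f := f) this
  obtain ⟨n, hn⟩ : ∃ n, 2 * (d * d ^ M) < 2 ^ n := ⟨_, Nat.lt_two_pow_self⟩
  have hmem : List.replicate (2 ^ n) e ∈ W := Or.inr ⟨e, n, he, he3, rfl⟩
  have hne : List.replicate (2 ^ n) e ≠ [] := by
    intro h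
    have := congrArg List.length h
    rw [List.length_replicate, List.length_nil] at this
    have h2 : 0 < 2 ^ n := by positivity
    omega
  obtain ⟨hT, hreach⟩ := (hW _ hne).mp hmem
  obtain ⟨t, ht⟩ := reach_iff.mp hreach
  have heT : e ∈ G.T := hT e (by
    rw [List.mem_replicate]
    exact ⟨by positivity, rfl⟩)
  have key := small_yield hs hd hd1 hM hn t G.S 0 0 (2 ^ n) G.S_mem (by
    intro r' h'
    have h1 := steps_length hg.c0 h'
    rw [List.length_replicate, List.length_singleton] at h1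
    have h2 : List.replicate r' e ≠ [] := by
      intro h
      have := congrArg List.length h
      rw [List.length_replicate, List.length_nil] at this
      omega
    have h3 : List.replicate r' e ∈ W := (hW _ h2).mpr ⟨fun x hx => by
      rw [List.eq_of_mem_replicate hx]; exact heT, reach_iff.mpr ⟨t, h'⟩⟩
    obtain ⟨m, hm⟩ := W_replicate h3
    exact ⟨m, by omega⟩) ht (by omega)
  have h6 : d ^ M ≤ d * d ^ M := Nat.le_mul_of_pos_left _ hd1
  omega

end

section

variable {G : EOL}

/-- `X` occurs in a derivable word in which all other symbols derive terminal words in `s`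
steps. -/
def Ctx (G : EOL) (s X : ℕ) : Prop :=
  ∃ t u v, G.Steps t [G.S] (u ++ [X] ++ v) ∧ (∀ z ∈ u, z ∈ Uset G s) ∧ ∀ z ∈ v, z ∈ Uset G s

theorem ctx_step {s X z : ℕ} {α1 α2 : List ℕ} (h : Ctx G (s + 1) X)
    (hP : (X, α1 ++ [z] ++ α2) ∈ G.P) (h1 : ∀ y ∈ α1, y ∈ Uset G s) (h2 : ∀ y ∈ α2, y ∈ Uset G s) :
    Ctx G s z := by
  obtain ⟨t, u, v, h3, h4, h5⟩ := h
  have step_of : ∀ u : List ℕ, (∀ z ∈ u, z ∈ Uset G (s + 1)) →
      ∃ u', G.Step u u' ∧ ∀ z ∈ u', z ∈ Uset G s := by
    intro u
    induction u with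
    | nil => intro _; exact ⟨[], step_nil.mpr rfl, by simp⟩
    | cons x u ih =>
      intro hu
      obtain ⟨u', k1, k2⟩ := ih (fun y hy => hu y (List.mem_cons_of_mem _ hy))
      obtain ⟨α, k3, k4⟩ := mem_Uset_succ.mp (hu x List.mem_cons_self)
      refine ⟨α ++ u', step_cons.mpr ⟨α, u', k3, k1, rfl⟩, ?_⟩
      intro y hy
      rcases List.mem_append.mp hy with h | h
      · exact k4 y h
      · exact k2 y h
  obtain ⟨u', a1, a2⟩ := step_of u h4
  obtain ⟨v', b1, b2⟩ := step_of v h5
  refine ⟨t + 1, u' ++ α1, α2 ++ v', ?_, ?_, ?_⟩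
  · refine steps_add.mpr ⟨_, h3, steps_one.mpr ?_⟩
    have : u' ++ α1 ++ [z] ++ (α2 ++ v') = (u' ++ (α1 ++ [z] ++ α2)) ++ v' := by
      simp only [List.append_assoc]
    rw [this]
    exact step_append.mpr ⟨_, _, step_append.mpr ⟨_, _, a1, step_single.mpr hP, rfl⟩, b1, rfl⟩
  · intro y hy
    rcases List.mem_append.mp hy with h | h
    · exact a2 y h
    · exact h1 y h
  · intro y hy
    rcases List.mem_append.mp hy with h | h
    · exact h2 y h
    · exact b2 y h

/-- A terminal symbol always derives words with a terminal symbol. -/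
theorem steps_terminal (hg : Good G) {t : ℕ} {u w : List ℕ} (h : G.Steps t u w)
    (hu : ∃ x ∈ u, x ∈ G.T) : ∃ x ∈ w, x ∈ G.T := by
  induction t generalizing u with
  | zero => rw [← show u = w from h]; exact hu
  | succ t ih =>
    obtain ⟨v, h1, h2⟩ := h
    apply ih h2
    obtain ⟨x, hx, hxT⟩ := hu
    obtain ⟨u1, u2, rfl⟩ := List.append_of_mem hx
    rw [show u1 ++ x :: u2 = u1 ++ ([x] ++ u2) from rfl] at h1
    obtain ⟨v1, v2, k1, k2, rfl⟩ := step_append.mp h1
    obtain ⟨v3, v4, k3, k4, rfl⟩ := step_append.mp k2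
    obtain ⟨z, hz, hzT⟩ := hg.c2 _ (step_single.mp k3) hxT
    exact ⟨z, List.mem_append_right _ (List.mem_append_left _ hz), hzT⟩

/-- A derivation of a single symbol from a single symbol is a path. -/
theorem path_of_single (hg : Good G) {m x y : ℕ} (h : G.Steps m [x] [y]) :
    ∃ f : ℕ → ℕ, f 0 = x ∧ (∀ i, i < m → (f i, [f (i + 1)]) ∈ G.P) ∧ f m = y := by
  induction m generalizing x with
  | zero =>
    have : [x] = [y] := h
    rw [List.cons.injEq] at this
    exact ⟨fun _ => x, rfl, fun i hi => absurd hi (Nat.not_lt_zero _), this.1⟩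
  | succ m ih =>
    obtain ⟨α, h1, h2⟩ := steps_succ_single.mp h
    have h3 := steps_length hg.c0 h2
    have h4 : 0 < α.length := List.length_pos_iff.mpr (hg.c0 _ h1)
    rw [List.length_singleton] at h3
    obtain ⟨z, rfl⟩ : ∃ z, α = [z] := List.length_eq_one_iff.mp (by omega)
    obtain ⟨f, f0, f1, f2⟩ := ih h2
    refine ⟨fun i => if i = 0 then x else f (i - 1), rfl, ?_, ?_⟩
    · intro i hi
      rcases Nat.eq_zero_or_pos i with h0 | h0
      · subst h0
        show (x, [f 0]) ∈ G.P
        rw [f0]; exact h1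
      · have := f1 (i - 1) (by omega)
        rw [show i - 1 + 1 = i by omega] at this
        show ((if i = 0 then x else f (i - 1)), [if i + 1 = 0 then x else f (i + 1 - 1)]) ∈ G.P
        rw [if_neg (by omega), if_neg (by omega), show i + 1 - 1 = i by omega]
        exact this
    · show (if m + 1 = 0 then x else f (m + 1 - 1)) = y
      rw [if_neg (by omega), show m + 1 - 1 = m by omega]
      exact f2

theorem path_steps {f : ℕ → ℕ} {m : ℕ} (hf : ∀ i, i < m → (f i, [f (i + 1)]) ∈ G.P) :
    ∀ k a, a + k ≤ m → G.Steps k [f a] [f (a + k)] := by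
  intro k
  induction k with
  | zero => intro a _; rfl
  | succ k ih =>
    intro a ha
    refine steps_succ_single.mpr ⟨[f (a + 1)], hf a (by omega), ?_⟩
    have := ih (a + 1) (by omega)
    rwa [show a + 1 + k = a + (k + 1) by ring] at this

/-- The idle bound. -/
theorem idle_bound (hg : Good G) (hW : EqMod W G.lang) {s0 p : ℕ} (hp : 1 ≤ p)
    (hper : ∀ t j, s0 ≤ t → Uset G (t + p * j) = Uset G t) {s m x y : ℕ} (hx : x ∈ G.T)
    (hctx : Ctx G s x) (hm : m ≤ s) (h : G.Steps m [x] [y]) : m < s0 + 4 * p := by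
  by_contra hlt
  push Not at hlt
  obtain ⟨f, f0, f1, f2⟩ := path_of_single hg h
  set ρ := (s - s0) % p with hρ
  have hρp : ρ < p := Nat.mod_lt _ hp
  have hs : s = s0 + ρ + p * ((s - s0) / p) := by
    have := Nat.div_add_mod (s - s0) p
    omega
  have hU : ∀ j, Uset G (s0 + ρ + p * j) = Uset G s := by
    intro j
    rw [hper _ j (by omega)]
    conv_rhs => rw [hs]
    rw [hper _ _ (by omega)]
  obtain ⟨t, u, v, h3, h4, h5⟩ := hctx
  have hlet : ∀ j : ℕ, j < 4 → 1 ≤ f (s0 + ρ + p * j) ∧ f (s0 + ρ + p * j) ≤ 3 := by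
    intro j hj
    have hpj : p * j ≤ p * 3 := Nat.mul_le_mul_left _ (by omega)
    have hle : s0 + ρ + p * j ≤ m := by omega
    obtain ⟨u', a1, a2⟩ := word_of_Uset (G := G) (t := s0 + ρ + p * j) (u := u) (by
      rw [hU]; exact h4)
    obtain ⟨v', b1, b2⟩ := word_of_Uset (G := G) (t := s0 + ρ + p * j) (u := v) (by
      rw [hU]; exact h5)
    have h6 : G.Steps (s0 + ρ + p * j) [x] [f (s0 + ρ + p * j)] := by
      have := path_steps f1 (s0 + ρ + p * j) 0 (by omega)
      rwa [f0, zero_add] at this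
    have h7 : f (s0 + ρ + p * j) ∈ G.T := by
      obtain ⟨z, hz, hzT⟩ := steps_terminal hg h6 ⟨x, List.mem_singleton_self _, hx⟩
      rw [List.mem_singleton] at hz
      rwa [← hz]
    have h8 : u' ++ [f (s0 + ρ + p * j)] ++ v' ∈ G.lang := by
      refine ⟨?_, reach_iff.mpr ⟨t + (s0 + ρ + p * j), steps_add.mpr ⟨_, h3, ?_⟩⟩⟩
      · intro z hz
        rw [List.mem_append, List.mem_append, List.mem_singleton] at hz
        rcases hz with (hz | hz) | hz
        · exact a1 z hz
        · rw [hz]; exact h7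
        · exact b1 z hz
      · exact steps_append.mpr ⟨_, _, steps_append.mpr ⟨_, _, a2, h6, rfl⟩, b2, rfl⟩
    have h9 := (hW _ (by simp)).mpr h8
    have h10 : f (s0 + ρ + p * j) ∈ u' ++ [f (s0 + ρ + p * j)] ++ v' := by simp
    rcases h9 with ⟨w, hw, h9⟩ | ⟨e, n, he1, he2, h9⟩
    · rw [h9] at h10
      simp only [List.mem_append, List.mem_singleton, List.mem_reverse] at h10
      rcases h10 with (h11 | h11) | h11
      · rcases hw _ h11 with h | h <;> omega
      · omega
      · rcases hw _ h11 with h | h <;> omega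
    · rw [h9] at h10
      rw [List.eq_of_mem_replicate h10]
      exact ⟨he1, he2⟩
  -- pigeonhole
  have hdist : ∀ i j : ℕ, i < j → j < 4 → f (s0 + ρ + p * i) ≠ f (s0 + ρ + p * j) := by
    intro i j hij hj heq
    have hpj : p * j ≤ p * 3 := Nat.mul_le_mul_left _ (by omega)
    have hpij : p * i + p * (j - i) = p * j := by
      rw [← Nat.mul_add]; congr 1; omega
    have h1 := path_steps f1 (p * (j - i)) (s0 + ρ + p * i) (by omega)
    rw [show s0 + ρ + p * i + p * (j - i) = s0 + ρ + p * j by omega, ← heq] at h1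
    exact no_stable hg hW (hlet i (by omega)).1 (hlet i (by omega)).2
      (Nat.mul_pos hp (by omega)) h1
  have l0 := hlet 0 (by omega)
  have l1 := hlet 1 (by omega)
  have l2 := hlet 2 (by omega)
  have l3 := hlet 3 (by omega)
  have d01 := hdist 0 1 (by omega) (by omega)
  have d02 := hdist 0 2 (by omega) (by omega)
  have d03 := hdist 0 3 (by omega) (by omega)
  have d12 := hdist 1 2 (by omega) (by omega)
  have d13 := hdist 1 3 (by omega) (by omega)
  have d23 := hdist 2 3 (by omega) (by omega)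
  omega

/-- First branching of a terminal symbol. -/
theorem first_branch (hg : Good G) :
    ∀ s x w, x ∈ G.T → Ctx G s x → G.Steps s [x] w →
      (∃ y, w = [y]) ∨ ∃ i y α, i < s ∧ G.Steps i [x] [y] ∧ y ∈ G.T ∧ Ctx G (s - i) y ∧
        (y, α) ∈ G.P ∧ 2 ≤ α.length ∧ G.Steps (s - i - 1) α w := by
  intro s
  induction s with
  | zero =>
    intro x w _ _ h
    exact Or.inl ⟨x, (show [x] = w from h).symm⟩
  | succ s ih =>
    intro x w hx hctx h
    obtain ⟨α, h1, h2⟩ := steps_succ_single.mp h
    have h4 : 0 < α.length := List.length_pos_iff.mpr (hg.c0 _ h1)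
    rcases Nat.lt_or_ge α.length 2 with h5 | h5
    · obtain ⟨z, rfl⟩ : ∃ z, α = [z] := List.length_eq_one_iff.mp (by omega)
      have hz : z ∈ G.T := by
        obtain ⟨y, hy, hyT⟩ := hg.c2 _ h1 hx
        rw [List.mem_singleton] at hy
        rwa [← hy]
      have hc : Ctx G s z := ctx_step (α1 := []) (α2 := []) hctx (by simpa using h1) (by simp)
        (by simp)
      rcases ih z w hz hc h2 with h6 | ⟨i, y, α, k1, k2, k3, k4, k5, k6, k7⟩
      · exact Or.inl h6
      · refine Or.inr ⟨i + 1, y, α, by omega, ?_, k3, ?_, k5, k6, ?_⟩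
        · exact steps_succ_single.mpr ⟨_, h1, k2⟩
        · rwa [show s + 1 - (i + 1) = s - i by omega]
        · rwa [show s + 1 - (i + 1) - 1 = s - i - 1 by omega]
    · exact Or.inr ⟨0, x, α, by omega, rfl, hx, hctx, h1, h5, h2⟩

/-- Terminal symbols have long yields. -/
theorem yield_bound (hg : Good G) (hW : EqMod W G.lang) {s0 p : ℕ} (hp : 1 ≤ p)
    (hper : ∀ t j, s0 ≤ t → Uset G (t + p * j) = Uset G t) :
    ∀ s x w, x ∈ G.T → Ctx G s x → G.Steps s [x] w → (∀ z ∈ w, z ∈ G.T) →
      s ≤ (s0 + 4 * p) * w.length := by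
  intro s
  induction s using Nat.strong_induction_on with
  | _ s ih =>
    intro x w hx hctx h hw
    rcases first_branch hg s x w hx hctx h with ⟨y, rfl⟩ | ⟨i, y, α, k1, k2, k3, k4, k5, k6, k7⟩
    · have := idle_bound hg hW hp hper hx hctx le_rfl h
      rw [List.length_singleton, mul_one]
      omega
    · have hi := idle_bound hg hW hp hper hx hctx k1.le k2
      obtain ⟨z, hz, hzT⟩ := hg.c2 _ k5 k3
      obtain ⟨α1, α2, hα⟩ := List.append_of_mem hz
      simp only at hα
      subst hα
      rw [show α1 ++ z :: α2 = α1 ++ [z] ++ α2 by simp] at k5 k7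
      obtain ⟨w12, w3, a1, a2, rfl⟩ := steps_append.mp k7
      obtain ⟨w1, w2, b1, b2, rfl⟩ := steps_append.mp a1
      have hc : Ctx G (s - i - 1) z := by
        rw [show s - i = (s - i - 1) + 1 by omega] at k4
        exact ctx_step k4 k5
          (Uset_of_word b1 (fun z hz => hw z (List.mem_append_left _ (List.mem_append_left _ hz))))
          (Uset_of_word a2 (fun z hz => hw z (List.mem_append_right _ hz)))
      have h1 := ih (s - i - 1) (by omega) z w2 hzT hc b2
        (fun z hz => hw z (List.mem_append_left _ (List.mem_append_right _ hz)))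
      have l1 := steps_length hg.c0 b1
      have l2 := steps_length hg.c0 a2
      rw [List.length_append, List.length_cons] at k6
      rw [List.length_append, List.length_append]
      have h2 : (s0 + 4 * p) * (w2.length + 1) ≤
          (s0 + 4 * p) * (w1.length + w2.length + w3.length) :=
        Nat.mul_le_mul_left _ (by omega)
      rw [mul_add, mul_one] at h2
      omega

end

section

variable {G : EOL}

/-- `Conc lv w`: the word `w` is a concatenation of words derived from the blocks of `lv`, each in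
the given number of steps. -/
def Conc (G : EOL) : List (ℕ × List ℕ) → List ℕ → Prop
  | [], w => w = []
  | q :: lv, w => ∃ w1 w2, G.Steps q.1 q.2 w1 ∧ Conc G lv w2 ∧ w = w1 ++ w2

theorem split3 {t c : ℕ} {α w w2 : List ℕ} (h : G.Steps t α (w ++ [c] ++ w2)) :
    ∃ α1 z α2 v1 w' w2' v2, α = α1 ++ [z] ++ α2 ∧ w = v1 ++ w' ∧ w2 = w2' ++ v2 ∧
      G.Steps t α1 v1 ∧ G.Steps t [z] (w' ++ [c] ++ w2') ∧ G.Steps t α2 v2 := by
  induction α generalizing w with
  | nil =>
    have := steps_nil.mp h
    simp at this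
  | cons z β ih =>
    rw [show z :: β = [z] ++ β from rfl] at h
    obtain ⟨w1, w3, h1, h2, h3⟩ := steps_append.mp h
    rw [List.append_assoc, List.append_eq_append_iff] at h3
    have case2 : ∀ c', w = w1 ++ c' → w3 = c' ++ ([c] ++ w2) →
        ∃ α1 z' α2 v1 w' w2' v2, z :: β = α1 ++ [z'] ++ α2 ∧ w = v1 ++ w' ∧ w2 = w2' ++ v2 ∧
          G.Steps t α1 v1 ∧ G.Steps t [z'] (w' ++ [c] ++ w2') ∧ G.Steps t α2 v2 := by
      intro c' hc hc3
      rw [hc3, ← List.append_assoc] at h2
      obtain ⟨α1, z', α2, v1, w', w2', v2, k1, k2, k3, k4, k5, k6⟩ := ih h2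
      refine ⟨z :: α1, z', α2, w1 ++ v1, w', w2', v2, ?_, ?_, k3, ?_, k5, k6⟩
      · rw [k1]; rfl
      · rw [hc, k2, List.append_assoc]
      · rw [show z :: α1 = [z] ++ α1 from rfl]
        exact steps_append.mpr ⟨_, _, h1, k4, rfl⟩
    rcases h3 with ⟨a', h4, h5⟩ | ⟨c', h4, h5⟩
    · cases a' with
      | nil =>
        apply case2 []
        · rw [h4]; simp
        · rw [List.nil_append] at h5
          rw [List.nil_append]; exact h5.symm
      | cons x a'' =>
        rw [List.singleton_append, List.cons_append, List.cons.injEq] at h5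
        refine ⟨[], z, β, [], w, a'', w3, rfl, rfl, h5.2, steps_nil.mpr rfl, ?_, h2⟩
        rw [h4, ← h5.1] at h1
        simpa using h1
    · exact case2 c' h4 h5

theorem sib {K t X : ℕ} {γ1 β γ2 v : List ℕ}
    (hY : ∀ s x w, x ∈ G.T → Ctx G s x → G.Steps s [x] w → (∀ z ∈ w, z ∈ G.T) →
      s ≤ K * w.length)
    (hctx : Ctx G (t + 1) X) (hP : (X, γ1 ++ β ++ γ2) ∈ G.P) (h1 : ∀ y ∈ γ1, y ∈ Uset G t)
    (h2 : ∀ y ∈ γ2, y ∈ Uset G t) (hβ : G.Steps t β v) (hv : ∀ z ∈ v, z ∈ G.T)
    (hy : ∃ y ∈ β, y ∈ G.T) : t ≤ K * v.length := by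
  obtain ⟨y, hy, hyT⟩ := hy
  obtain ⟨β1, β2, hβe⟩ := List.append_of_mem hy
  subst hβe
  rw [show β1 ++ y :: β2 = β1 ++ [y] ++ β2 by simp] at hβ hP
  obtain ⟨v12, v3, a1, a2, rfl⟩ := steps_append.mp hβ
  obtain ⟨v1, v2, b1, b2, rfl⟩ := steps_append.mp a1
  have hc : Ctx G t y := by
    refine ctx_step (α1 := γ1 ++ β1) (α2 := β2 ++ γ2) hctx ?_ ?_ ?_
    · simpa only [List.append_assoc] using hP
    · intro z hz
      rcases List.mem_append.mp hz with h | h
      · exact h1 z h
      · exact Uset_of_word b1 (fun z hz => hv z (List.mem_append_left _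
          (List.mem_append_left _ hz))) z h
    · intro z hz
      rcases List.mem_append.mp hz with h | h
      · exact Uset_of_word a2 (fun z hz => hv z (List.mem_append_right _ hz)) z h
      · exact h2 z h
  have := hY t y v2 hyT hc b2
    (fun z hz => hv z (List.mem_append_left _ (List.mem_append_right _ hz)))
  refine this.trans (Nat.mul_le_mul_left _ ?_)
  rw [List.length_append, List.length_append]
  omega

theorem spine (hg : Good G) {d K : ℕ} (hd : ∀ r ∈ G.P, r.2.length ≤ d) (h3T : 3 ∈ G.T)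
    (hY : ∀ s x w, x ∈ G.T → Ctx G s x → G.Steps s [x] w → (∀ z ∈ w, z ∈ G.T) →
      s ≤ K * w.length) :
    ∀ t X w w2, Ctx G t X → G.Steps t [X] (w ++ [3] ++ w2) → (∀ z ∈ w, z ∈ G.T) →
      (∀ z ∈ w2, z ∈ G.T) → ∃ (lv : List (ℕ × List ℕ)) (cs : List ℕ),
        (∀ q ∈ lv, q.1 ≤ K * (w.length + 1 + w2.length) ∧ q.2.length ≤ d ∧ ∀ z ∈ q.2, z ∈ G.V) ∧
        cs.Pairwise (fun a b => b < a) ∧ (∀ s ∈ cs, s < t) ∧
        cs.sum ≤ K * (w.length + w2.length) ∧
        lv.length ≤ 2 * cs.length + (if X ∈ G.T then 0 else 1) ∧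
        Conc G lv w ∧ ∀ w', Conc G lv w' → G.Steps t [X] (w' ++ [3] ++ w2) := by
  intro t
  induction t with
  | zero =>
    intro X w w2 _ h _ _
    have h1 : [X] = w ++ [3] ++ w2 := h
    have h2 := congrArg List.length h1
    rw [List.length_append, List.length_append, List.length_singleton, List.length_singleton] at h2
    have hw : w = [] := List.eq_nil_of_length_eq_zero (by omega)
    have hw2 : w2 = [] := List.eq_nil_of_length_eq_zero (by omega)
    subst hw hw2
    refine ⟨[], [], by simp, List.Pairwise.nil, by simp, by simp, by simp, rfl, ?_⟩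
    intro w' hw'
    rw [show w' = [] from hw']
    exact h
  | succ t ih =>
    intro X w w2 hctx h hw hw2
    obtain ⟨α, hα, h1⟩ := steps_succ_single.mp h
    obtain ⟨α1, z, α2, v1, w', w2', v2, rfl, rfl, rfl, k1, k2, k3⟩ := split3 h1
    have hv1 : ∀ z ∈ v1, z ∈ G.T := fun z hz => hw z (List.mem_append_left _ hz)
    have hv2 : ∀ z ∈ v2, z ∈ G.T := fun z hz => hw2 z (List.mem_append_right _ hz)
    have hw' : ∀ z ∈ w', z ∈ G.T := fun z hz => hw z (List.mem_append_right _ hz)
    have hw2' : ∀ z ∈ w2', z ∈ G.T := fun z hz => hw2 z (List.mem_append_left _ hz)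
    have u1 := Uset_of_word k1 hv1
    have u2 := Uset_of_word k3 hv2
    have hm : ∀ y ∈ w' ++ [3] ++ w2', y ∈ G.T := by
      intro y hy
      rw [List.mem_append, List.mem_append, List.mem_singleton] at hy
      rcases hy with (hy | hy) | hy
      · exact hw' y hy
      · rw [hy]; exact h3T
      · exact hw2' y hy
    have uz := Uset_of_word k2 hm
    have hcz : Ctx G t z := ctx_step hctx hα u1 u2
    obtain ⟨lv, cs, i1, i2, i3, i4, i5, i6, i7⟩ := ih z w' w2' hcz k2 hw' hw2'
    have cost1 : (∃ y ∈ α1, y ∈ G.T) → t ≤ K * v1.length := by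
      intro hy
      refine sib (γ1 := []) (γ2 := [z] ++ α2) hY hctx (by simpa using hα) (by simp) ?_ k1 hv1 hy
      intro y hy
      rcases List.mem_append.mp hy with h | h
      · exact uz y h
      · exact u2 y h
    have cost2 : (∃ y ∈ α2, y ∈ G.T) → t ≤ K * v2.length := by
      intro hy
      refine sib (γ1 := α1 ++ [z]) (γ2 := []) hY hctx (by simpa using hα) ?_ (by simp) k3 hv2 hy
      intro y hy
      rcases List.mem_append.mp hy with h | h
      · exact u1 y h
      · exact uz y h
    have costz : z ∈ G.T → t ≤ K * (w' ++ [3] ++ w2').length := fun hz => hY t z _ hz hcz k2 hm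
    have lenz : (w' ++ [3] ++ w2').length = w'.length + 1 + w2'.length := by
      rw [List.length_append, List.length_append, List.length_singleton]
    have len1 : (v1 ++ w').length = v1.length + w'.length := List.length_append
    have len2 : (w2' ++ v2).length = w2'.length + v2.length := List.length_append
    -- the new cost list
    obtain ⟨cs', j1, j2, j3, j4, j5⟩ : ∃ cs' : List ℕ, cs'.Pairwise (fun a b => b < a) ∧
        (∀ s ∈ cs', s < t + 1) ∧ cs'.sum ≤ K * ((v1 ++ w').length + (w2' ++ v2).length) ∧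
        cs.length ≤ cs'.length ∧
        ((∃ y ∈ α1 ++ α2, y ∈ G.T) → cs'.length = cs.length + 1) := by
      by_cases hc : ∃ y ∈ α1 ++ α2, y ∈ G.T
      · have ht : t ≤ K * (v1.length + v2.length) := by
          obtain ⟨y, hy, hyT⟩ := hc
          rw [mul_add]
          rcases List.mem_append.mp hy with h | h
          · have := cost1 ⟨y, h, hyT⟩; omega
          · have := cost2 ⟨y, h, hyT⟩; omega
        refine ⟨t :: cs, ?_, ?_, ?_, ?_, ?_⟩
        · exact List.pairwise_cons.mpr ⟨i3, i2⟩
        · intro s hs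
          rcases List.mem_cons.mp hs with h | h
          · omega
          · have := i3 s h; omega
        · rw [List.sum_cons, len1, len2]
          calc t + cs.sum ≤ K * (v1.length + v2.length) + K * (w'.length + w2'.length) :=
                Nat.add_le_add ht i4
            _ = _ := by ring
        · rw [List.length_cons]; omega
        · intro _; rw [List.length_cons]
      · refine ⟨cs, i2, fun s hs => (i3 s hs).trans (Nat.lt_succ_self _), ?_, le_rfl,
          fun h => absurd h hc⟩
        refine i4.trans (Nat.mul_le_mul_left _ ?_)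
        rw [len1, len2]; omega
    have mono : K * (w'.length + 1 + w2'.length) ≤
        K * ((v1 ++ w').length + 1 + (w2' ++ v2).length) :=
      Nat.mul_le_mul_left _ (by rw [len1, len2]; omega)
    rcases List.eq_nil_or_concat α1 with h0 | h0
    · -- no left siblings
      subst h0
      have hv1' : v1 = [] := steps_nil.mp k1
      subst hv1'
      refine ⟨lv, cs', ?_, j1, j2, j3, ?_, ?_, ?_⟩
      · intro q hq
        obtain ⟨q1, q2, q3⟩ := i1 q hq
        exact ⟨q1.trans mono, q2, q3⟩
      · by_cases hX : X ∈ G.T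
        · rw [if_pos hX]
          by_cases hz : z ∈ G.T
          · rw [if_pos hz] at i5; omega
          · rw [if_neg hz] at i5
            obtain ⟨y, hy, hyT⟩ := hg.c2 _ hα hX
            have := j5 ⟨y, by
              simp only [List.mem_append, List.mem_singleton] at hy ⊢
              rcases hy with (hy | hy) | hy
              · exact Or.inl hy
              · rw [hy] at hyT; exact absurd hyT hz
              · exact Or.inr hy, hyT⟩
            omega
        · rw [if_neg hX]
          split_ifs at i5 <;> omega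
      · rw [List.nil_append]; exact i6
      · intro w'' hw''
        refine steps_succ_single.mpr ⟨_, hα, ?_⟩
        rw [show w'' ++ [3] ++ (w2' ++ v2) = ([] ++ (w'' ++ [3] ++ w2')) ++ v2 by simp]
        exact steps_append.mpr ⟨_, _, steps_append.mpr ⟨_, _, steps_nil.mpr rfl, i7 _ hw'', rfl⟩,
          k3, rfl⟩
    · -- left siblings
      have h0' : α1 ≠ [] := by
        obtain ⟨_, _, h⟩ := h0
        rw [h]; simp
      have hlen : 1 ≤ α1.length := List.length_pos_iff.mpr h0'
      have htot : 2 ≤ (α1 ++ [z] ++ α2).length := by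
        rw [List.length_append, List.length_append, List.length_singleton]; omega
      have hex : ∃ y ∈ α1 ++ [z] ++ α2, y ∈ G.T := by
        by_cases hX : X ∈ G.T
        · exact hg.c2 _ hα hX
        · exact hg.c1 _ hα hX htot
      have ht : t ≤ K * ((v1 ++ w').length + 1 + (w2' ++ v2).length) := by
        obtain ⟨y, hy, hyT⟩ := hex
        simp only [List.mem_append, List.mem_singleton] at hy
        rcases hy with (hy | hy) | hy
        · refine (cost1 ⟨y, hy, hyT⟩).trans (Nat.mul_le_mul_left _ ?_)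
          rw [len1, len2]; omega
        · rw [hy] at hyT
          refine (costz hyT).trans (Nat.mul_le_mul_left _ ?_)
          rw [lenz, len1, len2]; omega
        · refine (cost2 ⟨y, hy, hyT⟩).trans (Nat.mul_le_mul_left _ ?_)
          rw [len1, len2]; omega
      refine ⟨(t, α1) :: lv, cs', ?_, j1, j2, j3, ?_, ?_, ?_⟩
      · intro q hq
        rcases List.mem_cons.mp hq with hq | hq
        · subst hq
          refine ⟨ht, ?_, ?_⟩
          · have := hd _ hα
            rw [List.length_append, List.length_append] at this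
            show α1.length ≤ d
            omega
          · intro y hy
            exact (G.P_sub _ hα).2 y (List.mem_append_left _ (List.mem_append_left _ hy))
        · obtain ⟨q1, q2, q3⟩ := i1 q hq
          exact ⟨q1.trans mono, q2, q3⟩
      · rw [List.length_cons]
        by_cases hz : z ∈ G.T
        · rw [if_pos hz] at i5
          by_cases hX : X ∈ G.T
          · rw [if_pos hX]
            have := j5 (hg.c3 _ hα α1 z α2 hX rfl hz h0')
            omega
          · rw [if_neg hX]
            omega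
        · rw [if_neg hz] at i5
          have hc : ∃ y ∈ α1 ++ α2, y ∈ G.T := by
            obtain ⟨y, hy, hyT⟩ := hex
            refine ⟨y, ?_, hyT⟩
            simp only [List.mem_append, List.mem_singleton] at hy ⊢
            rcases hy with (hy | hy) | hy
            · exact Or.inl hy
            · rw [hy] at hyT; exact absurd hyT hz
            · exact Or.inr hy
          have := j5 hc
          omega
      · exact ⟨v1, w', k1, i6, rfl⟩
      · rintro w'' ⟨y1, y2, l1, l2, rfl⟩
        refine steps_succ_single.mpr ⟨_, hα, ?_⟩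
        rw [show y1 ++ y2 ++ [3] ++ (w2' ++ v2) = (y1 ++ (y2 ++ [3] ++ w2')) ++ v2 by simp]
        exact steps_append.mpr ⟨_, _, steps_append.mpr ⟨_, _, l1, i7 _ l2, rfl⟩, k3, rfl⟩

end

section

variable {G : EOL}

theorem exists_q (A : ℕ) : ∃ q : ℕ, 1 ≤ q ∧ (A * q ^ 2) ^ 5 < 2 ^ q := by
  have h := tendsto_pow_const_div_const_pow_of_one_lt 10 (show (1 : ℝ) < 2 by norm_num)
  have hA : (0 : ℝ) < 1 / ((A : ℝ) ^ 5 + 1) := by positivity
  have h2 := (h.eventually (gt_mem_nhds hA)).and (Filter.eventually_ge_atTop 1)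
  obtain ⟨q, hq, hq1⟩ := h2.exists
  refine ⟨q, hq1, ?_⟩
  rw [div_lt_div_iff₀ (by positivity) (by positivity), one_mul] at hq
  have : ((A * q ^ 2 : ℕ) : ℝ) ^ 5 < 2 ^ q := by
    push_cast
    have h3 : ((A : ℝ) * (q : ℝ) ^ 2) ^ 5 = (q : ℝ) ^ 10 * (A : ℝ) ^ 5 := by ring
    rw [h3]
    have h4 : (0 : ℝ) ≤ (q : ℝ) ^ 10 := by positivity
    nlinarith
  exact_mod_cast this

theorem pairwise_len {cs : List ℕ} {t : ℕ} (h : cs.Pairwise (fun a b => b < a))
    (ht : ∀ s ∈ cs, s < t) : cs.length ≤ t := by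
  induction cs generalizing t with
  | nil => simp
  | cons s cs ih =>
    rw [List.pairwise_cons] at h
    have h1 := ih h.2 h.1
    have h2 := ht s List.mem_cons_self
    rw [List.length_cons]
    omega

theorem pairwise_sum {cs : List ℕ} (h : cs.Pairwise (fun a b => b < a)) :
    cs.length * cs.length ≤ 2 * cs.sum + cs.length := by
  induction cs with
  | nil => simp
  | cons s cs ih =>
    rw [List.pairwise_cons] at h
    have h1 := ih h.2
    have h2 := pairwise_len h.2 h.1
    rw [List.length_cons, List.sum_cons]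
    nlinarith

/-- Codes of lists. -/
def code {α β : Type} (M : ℕ) (c : α → β) (l : List α) : Fin M → Option β :=
  fun i => (l[(i : ℕ)]?).map c

theorem code_inj {α β : Type} {M : ℕ} {c : α → β} {l l' : List α} (hl : l.length ≤ M)
    (hl' : l'.length ≤ M) (hc : ∀ a ∈ l, ∀ b ∈ l', c a = c b → a = b)
    (h : code M c l = code M c l') : l = l' := by
  apply List.ext_getElem?
  intro i
  rcases Nat.lt_or_ge i M with hi | hi
  · have h1 := congrFun h ⟨i, hi⟩
    unfold code at h1
    simp only at h1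
    rcases h2 : l[i]? with _ | a
    · rw [h2] at h1
      rcases h3 : l'[i]? with _ | b
      · rfl
      · rw [h3] at h1
        exact absurd h1 (by simp)
    · rw [h2] at h1
      rcases h3 : l'[i]? with _ | b
      · rw [h3] at h1
        exact absurd h1 (by simp)
      · rw [h3] at h1
        rw [Option.map_some, Option.map_some, Option.some.injEq] at h1
        rw [hc a (List.mem_of_getElem? h2) b (List.mem_of_getElem? h3) h1]
  · rw [List.getElem?_eq_none (by omega), List.getElem?_eq_none (by omega)]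

/-- Reduction modulo `N + 1`. -/
def red (N x : ℕ) : Fin (N + 1) := ⟨x % (N + 1), Nat.mod_lt _ (Nat.succ_pos _)⟩

theorem red_inj {N x y : ℕ} (hx : x ≤ N) (hy : y ≤ N) (h : red N x = red N y) : x = y := by
  have := congrArg Fin.val h
  unfold red at this
  simp only at this
  rw [Nat.mod_eq_of_lt (by omega), Nat.mod_eq_of_lt (by omega)] at this
  exact this

def codeBlock (B R d : ℕ) (x : ℕ × List ℕ) : Fin (B + 1) × (Fin d → Option (Fin (R + 1))) :=
  (red B x.1, code d (red R) x.2)

theorem word_inj {u u' v : List ℕ} (hu : ∀ x ∈ u, x = 1 ∨ x = 2) (hu' : ∀ x ∈ u', x = 1 ∨ x = 2)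
    (h : u' ++ [3] ++ u.reverse ∈ W) (hne : u ≠ []) : u' = u := by
  have key : ∀ (a b c d : List ℕ), (∀ x ∈ a, x = 1 ∨ x = 2) → (∀ x ∈ c, x = 1 ∨ x = 2) →
      a ++ [3] ++ b = c ++ [3] ++ d → a = c ∧ b = d := by
    intro a
    induction a with
    | nil =>
      intro b c d _ hc h
      cases c with
      | nil =>
        simp only [List.nil_append, List.singleton_append, List.cons.injEq, true_and] at h
        exact ⟨rfl, h⟩
      | cons y c =>
        simp only [List.nil_append, List.cons_append, List.cons.injEq] at h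
        rcases hc y List.mem_cons_self with h1 | h1 <;> omega
    | cons x a ih =>
      intro b c d ha hc h
      cases c with
      | nil =>
        simp only [List.nil_append, List.cons_append, List.cons.injEq] at h
        rcases ha x List.mem_cons_self with h1 | h1 <;> omega
      | cons y c =>
        simp only [List.cons_append, List.cons.injEq] at h
        obtain ⟨h1, h2⟩ := ih b c d (fun z hz => ha z (List.mem_cons_of_mem _ hz))
          (fun z hz => hc z (List.mem_cons_of_mem _ hz)) h.2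
        exact ⟨by rw [h.1, h1], h2⟩
  rcases h with ⟨w, hw, h⟩ | ⟨e, n, he, he3, h⟩
  · obtain ⟨h1, h2⟩ := key _ _ _ _ hu' hw h
    rw [h1]
    have := congrArg List.reverse h2
    rw [List.reverse_reverse, List.reverse_reverse] at this
    exact this.symm
  · exfalso
    have h3 : ∀ x ∈ u' ++ [3] ++ u.reverse, x = e := by
      intro x hx
      rw [h] at hx
      exact List.eq_of_mem_replicate hx
    have h4 : 3 = e := h3 3 (by simp)
    cases u with
    | nil => exact hne rfl
    | cons x u =>
      have h5 := h3 x (by simp)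
      rcases hu x List.mem_cons_self with h6 | h6 <;> omega

theorem core (hg : Good G) (hW : EqMod W G.lang) : False := by
  classical
  obtain ⟨s0, p, hp, hper⟩ := Uset_periodic G
  obtain ⟨d, hd1, hd⟩ := exists_len G
  have hY := yield_bound hg hW hp hper
  set K := s0 + 4 * p with hK
  have hK1 : 1 ≤ K := by omega
  set R := G.V.sup id with hR
  obtain ⟨q, hq1, hq⟩ := exists_q (1 + (2 * K ^ 2 + K + 1) * (R + 2) ^ d)
  set n := K * q ^ 2 with hn
  have hn1 : 1 ≤ n := Nat.mul_pos hK1 (Nat.pow_pos hq1)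
  set B := K * (2 * n + 1) with hB
  set M := 4 * K * q + 1 with hM
  have h3T : 3 ∈ G.T := by
    have h1 : [3] ∈ W := Or.inl ⟨[], by simp, rfl⟩
    have h2 := (hW [3] (by simp)).mp h1
    exact h2.1 3 (by simp)
  -- the word of a function
  let u : (Fin n → Bool) → List ℕ := fun f => List.ofFn (fun i => if f i then 1 else 2)
  have hu : ∀ f, ∀ x ∈ u f, x = 1 ∨ x = 2 := by
    intro f x hx
    obtain ⟨i, hi⟩ := (List.mem_ofFn' _ _).mp hx
    rw [← hi]
    simp only
    split_ifs
    · exact Or.inl rfl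
    · exact Or.inr rfl
  have hulen : ∀ f, (u f).length = n := fun f => List.length_ofFn
  have huinj : Function.Injective u := by
    intro f g hfg
    have h1 := List.ofFn_injective hfg
    funext i
    have h2 := congrFun h1 i
    by_cases hf : f i = true
    · by_cases hg : g i = true
      · rw [hf, hg]
      · rw [if_pos hf, if_neg hg] at h2; omega
    · by_cases hg : g i = true
      · rw [if_neg hf, if_pos hg] at h2; omega
      · rw [Bool.not_eq_true] at hf hg
        rw [hf, hg]
  -- the sibling lists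
  have hlist : ∀ f, ∃ lv : List (ℕ × List ℕ), lv.length ≤ M ∧
      (∀ x ∈ lv, x.1 ≤ B ∧ x.2.length ≤ d ∧ ∀ z ∈ x.2, z ≤ R) ∧ Conc G lv (u f) ∧
      ∀ w', Conc G lv w' → (∀ z ∈ w', z = 1 ∨ z = 2) → w' ++ [3] ++ (u f).reverse ∈ G.lang := by
    intro f
    have hmem : u f ++ [3] ++ (u f).reverse ∈ W := Or.inl ⟨u f, hu f, rfl⟩
    obtain ⟨hT, hreach⟩ := (hW _ (by simp)).mp hmem
    obtain ⟨t, ht⟩ := reach_iff.mp hreach
    have hctx : Ctx G t G.S := ⟨0, [], [], rfl, by simp, by simp⟩
    have huT : ∀ g : Fin n → Bool, ∀ z ∈ u g, z ∈ G.T := by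
      intro g z hz
      have hmem : u g ++ [3] ++ (u g).reverse ∈ W := Or.inl ⟨u g, hu g, rfl⟩
      exact ((hW _ (by simp)).mp hmem).1 z (by simp [hz])
    obtain ⟨lv, cs, i1, i2, i3, i4, i5, i6, i7⟩ := spine hg hd h3T hY t G.S (u f) (u f).reverse
      hctx ht (huT f) (fun z hz => huT f z (List.mem_reverse.mp hz))
    rw [if_neg G.S_notMem] at i5
    rw [List.length_reverse, hulen] at i4
    refine ⟨lv, ?_, ?_, i6, ?_⟩
    · have h1 := pairwise_sum i2
      have h2 : cs.length ≤ 2 * K * q := by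
        by_contra hlt
        push Not at hlt
        have h3 : K * (n + n) * 2 = (2 * K * q) * (2 * K * q) := by rw [hn]; ring
        have h4 : (2 * K * q + 1) * cs.length ≤ cs.length * cs.length :=
          Nat.mul_le_mul_right _ hlt
        have h5 : 0 < 2 * K * q := by positivity
        have h6 : 2 * K * q * (2 * K * q + 1) ≤ 2 * K * q * cs.length := Nat.mul_le_mul_left _ hlt
        have h7 : (2 * K * q + 1) * cs.length = 2 * K * q * cs.length + cs.length := by ring
        have h8 : 2 * K * q * (2 * K * q + 1) = 2 * K * q * (2 * K * q) + 2 * K * q := by ring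
        omega
      rw [hM]
      have h9 : 4 * K * q = 2 * (2 * K * q) := by ring
      omega
    · intro x hx
      obtain ⟨q1, q2, q3⟩ := i1 x hx
      rw [List.length_reverse, hulen] at q1
      refine ⟨q1.trans (le_of_eq ?_), q2, ?_⟩
      · rw [hB]; ring
      · intro z hz
        exact Finset.le_sup (f := id) (q3 z hz)
    · intro w' hw' hw12
      refine ⟨?_, reach_iff.mpr ⟨t, i7 w' hw'⟩⟩
      intro z hz
      have h12 : 1 ∈ G.T ∧ 2 ∈ G.T := by
        have g1 : [1] ∈ W := Or.inr ⟨1, 0, by omega, by omega, rfl⟩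
        have g2 : [2] ∈ W := Or.inr ⟨2, 0, by omega, by omega, rfl⟩
        exact ⟨((hW _ (by simp)).mp g1).1 1 (by simp), ((hW _ (by simp)).mp g2).1 2 (by simp)⟩
      rw [List.mem_append, List.mem_append, List.mem_singleton, List.mem_reverse] at hz
      rcases hz with (hz | hz) | hz
      · rcases hw12 z hz with h | h
        · rw [h]; exact h12.1
        · rw [h]; exact h12.2
      · rw [hz]; exact h3T
      · exact huT f z hz
  choose lv l1 l2 l3 l4 using hlist
  have hinj : Function.Injective (fun f => code M (codeBlock B R d) (lv f)) := by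
    intro f g hfg
    have h1 : lv f = lv g := by
      apply code_inj (l1 f) (l1 g) ?_ hfg
      intro a ha b hb hab
      obtain ⟨a1, a2, a3⟩ := l2 f a ha
      obtain ⟨b1, b2, b3⟩ := l2 g b hb
      unfold codeBlock at hab
      rw [Prod.mk.injEq] at hab
      refine Prod.ext (red_inj a1 b1 hab.1) (code_inj a2 b2 ?_ hab.2)
      intro x hx y hy hxy
      exact red_inj (a3 x hx) (b3 y hy) hxy
    have h2 : Conc G (lv f) (u g) := by rw [h1]; exact l3 g
    have h3 := l4 f (u g) h2 (hu g)
    have h4 := (hW _ (by simp)).mpr h3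
    have h5 := word_inj (v := []) (hu f) (hu g) h4 (by
      intro h
      have := congrArg List.length h
      rw [hulen, List.length_nil] at this
      omega)
    exact huinj h5.symm
  have hcard := Fintype.card_le_of_injective _ hinj
  rw [Fintype.card_fun, Fintype.card_bool, Fintype.card_fin, Fintype.card_fun, Fintype.card_option,
    Fintype.card_prod, Fintype.card_fun, Fintype.card_option, Fintype.card_fin, Fintype.card_fin,
    Fintype.card_fin, Fintype.card_fin] at hcard
  have hbase : (B + 1) * (R + 1 + 1) ^ d + 1 ≤ (1 + (2 * K ^ 2 + K + 1) * (R + 2) ^ d) * q ^ 2 := by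
    have hq2 : 1 ≤ q ^ 2 := Nat.one_le_pow _ _ hq1
    have e1 : B + 1 ≤ (2 * K ^ 2 + K + 1) * q ^ 2 := by
      rw [hB, hn]
      nlinarith
    calc (B + 1) * (R + 1 + 1) ^ d + 1 ≤ ((2 * K ^ 2 + K + 1) * q ^ 2) * (R + 2) ^ d + q ^ 2 :=
          Nat.add_le_add (Nat.mul_le_mul_right _ e1) hq2
      _ = _ := by ring
  have hexp : M ≤ 5 * (K * q) := by
    rw [hM]
    have : 1 ≤ K * q := Nat.mul_pos hK1 hq1
    nlinarith
  have hA1 : 1 ≤ (1 + (2 * K ^ 2 + K + 1) * (R + 2) ^ d) * q ^ 2 :=
    Nat.mul_pos (by omega) (Nat.pow_pos hq1)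
  have hfin : 2 ^ n < 2 ^ n := by
    calc 2 ^ n ≤ ((B + 1) * (R + 1 + 1) ^ d + 1) ^ M := hcard
      _ ≤ ((1 + (2 * K ^ 2 + K + 1) * (R + 2) ^ d) * q ^ 2) ^ M := Nat.pow_le_pow_left hbase _
      _ ≤ ((1 + (2 * K ^ 2 + K + 1) * (R + 2) ^ d) * q ^ 2) ^ (5 * (K * q)) :=
          Nat.pow_le_pow_right hA1 hexp
      _ = (((1 + (2 * K ^ 2 + K + 1) * (R + 2) ^ d) * q ^ 2) ^ 5) ^ (K * q) := by rw [pow_mul]
      _ < (2 ^ q) ^ (K * q) := Nat.pow_lt_pow_left hq (Nat.mul_pos hK1 hq1).ne'
      _ = 2 ^ n := by rw [← pow_mul, hn]; congr 1; ring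
  exact lt_irrefl _ hfin

end

section

/-- A nonerasing `{S, a}`-form in which every production of `S` with a right-hand side of length at
least two contains `a`, every production of `a` contains `a`, and every production `a → α` in which
`a` occurs exactly once has `a` at the beginning of `α`. -/
structure LeftForm (G : EOL) (a : ℕ) : Prop where
  V_eq : G.V = {G.S, a}
  T_eq : G.T = {a}
  nonerasing : ∀ r ∈ G.P, r.2 ≠ []
  fromS : ∀ r ∈ G.P, r.1 = G.S → 2 ≤ r.2.length → a ∈ r.2
  froma : ∀ r ∈ G.P, r.1 = a → a ∈ r.2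
  side : ∀ r ∈ G.P, r.1 = a → r.2.count a = 1 → r.2.head? = some a

/-- The mirror image of `LeftForm`: in every production `a → α` in which `a` occurs exactly once,
`a` is at the end of `α`. -/
structure RightForm (G : EOL) (a : ℕ) : Prop where
  V_eq : G.V = {G.S, a}
  T_eq : G.T = {a}
  nonerasing : ∀ r ∈ G.P, r.2 ≠ []
  fromS : ∀ r ∈ G.P, r.1 = G.S → 2 ≤ r.2.length → a ∈ r.2
  froma : ∀ r ∈ G.P, r.1 = a → a ∈ r.2
  side : ∀ r ∈ G.P, r.1 = a → r.2.count a = 1 → r.2.getLast? = some a

theorem forall2_mem {μ : ℕ → Finset ℕ} {l l' : List ℕ} (h : List.Forall₂ (fun y x => y ∈ μ x) l l')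
    {b : ℕ} (hb : b ∈ l') : ∃ y ∈ l, y ∈ μ b := by
  induction h with
  | nil => exact absurd hb (List.not_mem_nil)
  | cons h1 _ ih =>
    rcases List.mem_cons.mp hb with h | h
    · exact ⟨_, List.mem_cons_self, h ▸ h1⟩
    · obtain ⟨y, hy, hy2⟩ := ih h
      exact ⟨y, List.mem_cons_of_mem _ hy, hy2⟩

theorem forall2_split {μ : ℕ → Finset ℕ} {α1 α2 l' : List ℕ} {z : ℕ}
    (h : List.Forall₂ (fun y x => y ∈ μ x) (α1 ++ [z] ++ α2) l') :
    ∃ β1 b β2, l' = β1 ++ [b] ++ β2 ∧ List.Forall₂ (fun y x => y ∈ μ x) α1 β1 ∧ z ∈ μ b ∧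
      List.Forall₂ (fun y x => y ∈ μ x) α2 β2 := by
  induction α1 generalizing l' with
  | nil =>
    rw [List.nil_append, List.singleton_append] at h
    obtain ⟨b, β2, h1, h2, rfl⟩ := List.forall₂_cons_left_iff.mp h
    exact ⟨[], b, β2, rfl, List.Forall₂.nil, h1, h2⟩
  | cons y α1 ih =>
    rw [List.cons_append, List.cons_append] at h
    obtain ⟨c, l'', h1, h2, rfl⟩ := List.forall₂_cons_left_iff.mp h
    obtain ⟨β1, b, β2, rfl, k1, k2, k3⟩ := ih h2
    exact ⟨c :: β1, b, β2, rfl, List.Forall₂.cons h1 k1, k2, k3⟩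

theorem good_of_interp {G H : EOL} {a : ℕ} (hG : LeftForm G a) (h : Interp G H) : Good H := by
  obtain ⟨μ, h1, h2, _, h4, _⟩ := h
  have haT : a ∈ G.T := by rw [hG.T_eq]; exact Finset.mem_singleton_self a
  have hSV : G.S ∈ G.V \ G.T := Finset.mem_sdiff.mpr ⟨G.S_mem, G.S_notMem⟩
  have hmem : ∀ x ∈ G.V, x = G.S ∨ x = a := by
    intro x hx
    rw [hG.V_eq, Finset.mem_insert, Finset.mem_singleton] at hx
    exact hx
  have ta : ∀ y, y ∈ μ a → y ∈ H.T := fun y hy => h1 a haT hy
  have tS : ∀ y, y ∈ μ G.S → y ∉ H.T := fun y hy => (Finset.mem_sdiff.mp (h2 _ hSV hy)).2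
  refine ⟨?_, ?_, ?_, ?_⟩
  · intro r hr hnil
    obtain ⟨q, hq, _, k2⟩ := h4 r hr
    rw [hnil] at k2
    exact hG.nonerasing q hq (List.forall₂_nil_left_iff.mp k2)
  · intro r hr hT hlen
    obtain ⟨q, hq, k1, k2⟩ := h4 r hr
    have hqS : q.1 = G.S := by
      rcases hmem _ (G.P_sub q hq).1 with h | h
      · exact h
      · rw [h] at k1
        exact absurd (ta _ k1) hT
    rw [k2.length_eq] at hlen
    obtain ⟨y, hy, hy2⟩ := forall2_mem k2 (hG.fromS q hq hqS hlen)
    exact ⟨y, hy, ta _ hy2⟩
  · intro r hr hT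
    obtain ⟨q, hq, k1, k2⟩ := h4 r hr
    have hqa : q.1 = a := by
      rcases hmem _ (G.P_sub q hq).1 with h | h
      · rw [h] at k1
        exact absurd hT (tS _ k1)
      · exact h
    obtain ⟨y, hy, hy2⟩ := forall2_mem k2 (hG.froma q hq hqa)
    exact ⟨y, hy, ta _ hy2⟩
  · intro r hr α1 z α2 hT hα hz hne
    obtain ⟨q, hq, k1, k2⟩ := h4 r hr
    have hqa : q.1 = a := by
      rcases hmem _ (G.P_sub q hq).1 with h | h
      · rw [h] at k1
        exact absurd hT (tS _ k1)
      · exact h
    rw [hα] at k2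
    obtain ⟨β1, b, β2, hβ, l1, l2, l3⟩ := forall2_split k2
    have hba : b = a := by
      have hbV : b ∈ G.V := (G.P_sub q hq).2 b (by rw [hβ]; simp)
      rcases hmem _ hbV with h | h
      · rw [h] at l2
        exact absurd hz (tS _ l2)
      · exact h
    subst hba
    have hβne : β1 ≠ [] := by
      intro h
      rw [h] at l1
      exact hne (List.forall₂_nil_right_iff.mp l1)
    have hex : b ∈ β1 ∨ b ∈ β2 := by
      by_contra hcon
      push Not at hcon
      have hcount : q.2.count b = 1 := by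
        rw [hβ, List.count_append, List.count_append, List.count_eq_zero.mpr hcon.1,
          List.count_eq_zero.mpr hcon.2]
        simp
      have hhead := hG.side q hq hqa hcount
      obtain ⟨c, β1', rfl⟩ := List.exists_cons_of_ne_nil hβne
      rw [hβ] at hhead
      simp only [List.cons_append, List.head?_cons, Option.some.injEq] at hhead
      exact hcon.1 (by rw [hhead]; exact List.mem_cons_self)
    rcases hex with h | h
    · obtain ⟨y, hy, hy2⟩ := forall2_mem l1 h
      exact ⟨y, List.mem_append_left _ hy, ta _ hy2⟩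
    · obtain ⟨y, hy, hy2⟩ := forall2_mem l3 h
      exact ⟨y, List.mem_append_right _ hy, ta _ hy2⟩

/-- The mirror image of a grammar. -/
def EOL.rev (G : EOL) : EOL where
  V := G.V
  T := G.T
  P := G.P.image (fun r => (r.1, r.2.reverse))
  S := G.S
  T_sub := G.T_sub
  S_mem := G.S_mem
  S_notMem := G.S_notMem
  P_sub := by
    intro r hr
    obtain ⟨q, hq, rfl⟩ := Finset.mem_image.mp hr
    exact ⟨(G.P_sub q hq).1, fun x hx => (G.P_sub q hq).2 x (List.mem_reverse.mp hx)⟩
  total := by
    intro x hx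
    obtain ⟨α, hα⟩ := G.total x hx
    exact ⟨α.reverse, Finset.mem_image.mpr ⟨_, hα, rfl⟩⟩

theorem mem_rev {G : EOL} {x : ℕ} {α : List ℕ} : (x, α) ∈ G.rev.P ↔ (x, α.reverse) ∈ G.P := by
  show (x, α) ∈ G.P.image (fun r => (r.1, r.2.reverse)) ↔ _
  rw [Finset.mem_image]
  constructor
  · rintro ⟨q, hq, h⟩
    rw [Prod.mk.injEq] at h
    rw [← h.1, ← h.2, List.reverse_reverse]
    exact hq
  · intro h
    exact ⟨_, h, by rw [List.reverse_reverse]⟩

theorem step_rev {G : EOL} {u w : List ℕ} (h : G.Step u w) : G.rev.Step u.reverse w.reverse := by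
  induction u generalizing w with
  | nil => rw [step_nil.mp h]; exact step_nil.mpr rfl
  | cons x u ih =>
    obtain ⟨α, w', h1, h2, rfl⟩ := step_cons.mp h
    rw [List.reverse_cons, List.reverse_append]
    refine step_append.mpr ⟨_, _, ih h2, step_single.mpr (mem_rev.mpr ?_), rfl⟩
    rw [List.reverse_reverse]; exact h1

theorem rev_rev (G : EOL) : G.rev.rev = G := by
  have : G.rev.rev.P = G.P := by
    ext ⟨x, α⟩
    rw [mem_rev, mem_rev, List.reverse_reverse]
  cases G
  unfold EOL.rev at this ⊢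
  simp only at this ⊢
  congr

theorem reach_rev {G : EOL} {u w : List ℕ} (h : Relation.ReflTransGen G.Step u w) :
    Relation.ReflTransGen G.rev.Step u.reverse w.reverse := by
  induction h with
  | refl => exact Relation.ReflTransGen.refl
  | tail _ h2 ih => exact ih.tail (step_rev h2)

theorem lang_rev {G : EOL} {w : List ℕ} : w ∈ G.rev.lang ↔ w.reverse ∈ G.lang := by
  constructor
  · rintro ⟨h1, h2⟩
    refine ⟨fun x hx => h1 x (List.mem_reverse.mp hx), ?_⟩
    have := reach_rev h2
    rw [rev_rev] at this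
    exact this
  · rintro ⟨h1, h2⟩
    refine ⟨fun x hx => h1 x (List.mem_reverse.mpr hx), ?_⟩
    have := reach_rev h2
    rw [List.reverse_reverse] at this
    exact this

theorem W_rev {w : List ℕ} (h : w ∈ W) : w.reverse ∈ W := by
  rcases h with ⟨u, hu, rfl⟩ | ⟨e, n, h1, h2, rfl⟩
  · refine Or.inl ⟨u, hu, ?_⟩
    simp
  · refine Or.inr ⟨e, n, h1, h2, ?_⟩
    rw [List.reverse_replicate]

theorem interp_rev {G H : EOL} (h : Interp G H) : Interp G.rev H.rev := by
  obtain ⟨μ, h1, h2, h3, h4, h5⟩ := h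
  refine ⟨μ, h1, h2, h3, ?_, h5⟩
  intro r hr
  obtain ⟨q', hq', k1, k2⟩ := h4 (r.1, r.2.reverse) (mem_rev.mp hr)
  refine ⟨(q'.1, q'.2.reverse), mem_rev.mpr (by rw [List.reverse_reverse]; exact hq'), k1, ?_⟩
  have := List.forall₂_reverse_iff.mpr k2
  rwa [List.reverse_reverse] at this

theorem leftForm_rev {G : EOL} {a : ℕ} (h : RightForm G a) : LeftForm G.rev a where
  V_eq := h.V_eq
  T_eq := h.T_eq
  nonerasing := by
    intro r hr hnil
    have := h.nonerasing _ (mem_rev.mp hr)
    apply this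
    show r.2.reverse = []
    rw [hnil]; rfl
  fromS := by
    intro r hr hS hlen
    have := h.fromS _ (mem_rev.mp hr) hS (by show 2 ≤ r.2.reverse.length; rwa [List.length_reverse])
    exact List.mem_reverse.mp this
  froma := by
    intro r hr hS
    exact List.mem_reverse.mp (h.froma _ (mem_rev.mp hr) hS)
  side := by
    intro r hr hS hc
    have := h.side _ (mem_rev.mp hr) hS (by
      show r.2.reverse.count a = 1
      rwa [List.count_reverse])
    have h2 : r.2.reverse.getLast? = some a := this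
    rwa [List.getLast?_reverse] at h2

end

section

/-- An EOL grammar for the witness language.  `0` is the start symbol, `4, 5, 6` produce the powers
of the letters `1, 2, 3`, `7` produces the palindromes, `8, 9` are waiting versions of the letters
`1, 2`, and `10` is dead. -/
def wit : EOL where
  V := {0, 1, 2, 3, 4, 5, 6, 7, 8, 9, 10}
  T := {1, 2, 3}
  P := {(0, [4]), (0, [5]), (0, [6]), (0, [7]), (4, [4, 4]), (4, [1]), (5, [5, 5]), (5, [2]),
    (6, [6, 6]), (6, [3]), (7, [8, 7, 8]), (7, [9, 7, 9]), (7, [3]), (8, [8]), (8, [1]), (9, [9]),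
    (9, [2]), (1, [10]), (2, [10]), (3, [10]), (10, [10])}
  S := 0
  T_sub := by decide
  S_mem := by decide
  S_notMem := by decide
  P_sub := by decide
  total := by
    intro x hx
    simp only [Finset.mem_insert, Finset.mem_singleton] at hx
    rcases hx with rfl | rfl | rfl | rfl | rfl | rfl | rfl | rfl | rfl | rfl | rfl
    · exact ⟨[4], by decide⟩
    · exact ⟨[10], by decide⟩
    · exact ⟨[10], by decide⟩
    · exact ⟨[10], by decide⟩
    · exact ⟨[1], by decide⟩
    · exact ⟨[2], by decide⟩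
    · exact ⟨[3], by decide⟩
    · exact ⟨[3], by decide⟩
    · exact ⟨[1], by decide⟩
    · exact ⟨[2], by decide⟩
    · exact ⟨[10], by decide⟩

theorem wit_T {x : ℕ} : x ∈ wit.T ↔ x = 1 ∨ x = 2 ∨ x = 3 := by
  show x ∈ ({1, 2, 3} : Finset ℕ) ↔ _
  simp only [Finset.mem_insert, Finset.mem_singleton]

theorem wit_P {r : ℕ × List ℕ} : r ∈ wit.P ↔
    r = (0, [4]) ∨ r = (0, [5]) ∨ r = (0, [6]) ∨ r = (0, [7]) ∨ r = (4, [4, 4]) ∨ r = (4, [1]) ∨
    r = (5, [5, 5]) ∨ r = (5, [2]) ∨ r = (6, [6, 6]) ∨ r = (6, [3]) ∨ r = (7, [8, 7, 8]) ∨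
    r = (7, [9, 7, 9]) ∨ r = (7, [3]) ∨ r = (8, [8]) ∨ r = (8, [1]) ∨ r = (9, [9]) ∨
    r = (9, [2]) ∨ r = (1, [10]) ∨ r = (2, [10]) ∨ r = (3, [10]) ∨ r = (10, [10]) := by
  show r ∈ ({(0, [4]), (0, [5]), (0, [6]), (0, [7]), (4, [4, 4]), (4, [1]), (5, [5, 5]), (5, [2]),
    (6, [6, 6]), (6, [3]), (7, [8, 7, 8]), (7, [9, 7, 9]), (7, [3]), (8, [8]), (8, [1]), (9, [9]),
    (9, [2]), (1, [10]), (2, [10]), (3, [10]), (10, [10])} : Finset (ℕ × List ℕ)) ↔ _
  simp only [Finset.mem_insert, Finset.mem_singleton]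

theorem wit_dead {e : ℕ} {α : List ℕ} (he : e = 1 ∨ e = 2 ∨ e = 3 ∨ e = 10)
    (h : (e, α) ∈ wit.P) : α = [10] := by
  rw [wit_P] at h
  rcases he with rfl | rfl | rfl | rfl <;> simpa using h

/-- The dead symbol never disappears. -/
theorem dead {t : ℕ} {w : List ℕ} (h : wit.Steps t [10] w) : w = [10] := by
  induction t with
  | zero => exact (show [10] = w from h).symm
  | succ t ih =>
    obtain ⟨α, h1, h2⟩ := steps_succ_single.mp h
    rw [wit_dead (by omega) h1] at h2
    exact ih h2

/-- A letter derives only itself as a terminal word. -/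
theorem letter {t e : ℕ} {w : List ℕ} (he : 1 ≤ e ∧ e ≤ 3) (h : wit.Steps t [e] w)
    (hw : ∀ z ∈ w, z ∈ wit.T) : w = [e] := by
  cases t with
  | zero => exact (show [e] = w from h).symm
  | succ t =>
    exfalso
    obtain ⟨α, h1, h2⟩ := steps_succ_single.mp h
    rw [wit_dead (by omega) h1] at h2
    have h3 := dead h2
    rw [h3] at hw
    have := wit_T.mp (hw 10 (by simp))
    omega

theorem wit_pow {t x e : ℕ} {w : List ℕ} (hx : (x = 4 ∧ e = 1) ∨ (x = 5 ∧ e = 2) ∨ (x = 6 ∧ e = 3))
    (h : wit.Steps t [x] w) (hw : ∀ z ∈ w, z ∈ wit.T) :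
    ∃ s, t = s + 1 ∧ w = List.replicate (2 ^ s) e := by
  induction t generalizing w with
  | zero =>
    exfalso
    rw [← show [x] = w from h] at hw
    have := wit_T.mp (hw x (by simp))
    omega
  | succ t ih =>
    refine ⟨t, rfl, ?_⟩
    obtain ⟨α, h1, h2⟩ := steps_succ_single.mp h
    have hα : α = [x] ++ [x] ∨ α = [e] := by
      rw [wit_P] at h1
      rcases hx with ⟨rfl, rfl⟩ | ⟨rfl, rfl⟩ | ⟨rfl, rfl⟩ <;> simpa using h1
    rcases hα with rfl | rfl
    · obtain ⟨w1, w2, k1, k2, rfl⟩ := steps_append.mp h2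
      obtain ⟨s, hs, e1⟩ := ih k1 (fun z hz => hw z (List.mem_append_left _ hz))
      obtain ⟨s', hs', e2⟩ := ih k2 (fun z hz => hw z (List.mem_append_right _ hz))
      have : s' = s := by omega
      rw [e1, e2, this, ← List.replicate_add, hs, pow_succ]
      congr 1; ring
    · have he : 1 ≤ e ∧ e ≤ 3 := by omega
      have h3 := letter he h2 hw
      have h4 : t = 0 := by
        rcases Nat.eq_zero_or_pos t with h | h
        · exact h
        · exfalso
          obtain ⟨t', rfl⟩ : ∃ t', t = t' + 1 := ⟨t - 1, by omega⟩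
          obtain ⟨β, g1, g2⟩ := steps_succ_single.mp h2
          rw [wit_dead (by omega) g1] at g2
          have h5 := dead g2
          rw [h5, List.cons.injEq] at h3
          omega
      rw [h3, h4]; rfl

theorem wit_wait {t x e : ℕ} {w : List ℕ} (hx : (x = 8 ∧ e = 1) ∨ (x = 9 ∧ e = 2))
    (h : wit.Steps t [x] w) (hw : ∀ z ∈ w, z ∈ wit.T) : w = [e] := by
  induction t with
  | zero =>
    exfalso
    rw [← show [x] = w from h] at hw
    have := wit_T.mp (hw x (by simp))
    omega
  | succ t ih =>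
    obtain ⟨α, h1, h2⟩ := steps_succ_single.mp h
    have hα : α = [x] ∨ α = [e] := by
      rw [wit_P] at h1
      rcases hx with ⟨rfl, rfl⟩ | ⟨rfl, rfl⟩ <;> simpa using h1
    rcases hα with rfl | rfl
    · exact ih h2
    · exact letter (by omega) h2 hw

theorem wit_pal {t : ℕ} {w : List ℕ} (h : wit.Steps t [7] w) (hw : ∀ z ∈ w, z ∈ wit.T) :
    ∃ u : List ℕ, (∀ x ∈ u, x = 1 ∨ x = 2) ∧ w = u ++ [3] ++ u.reverse := by
  induction t generalizing w with
  | zero =>
    exfalso
    rw [← show [7] = w from h] at hw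
    have := wit_T.mp (hw 7 (by simp))
    omega
  | succ t ih =>
    obtain ⟨α, h1, h2⟩ := steps_succ_single.mp h
    have hα : (∃ x e, ((x = 8 ∧ e = 1) ∨ (x = 9 ∧ e = 2)) ∧ α = [x] ++ [7] ++ [x]) ∨ α = [3] := by
      rw [wit_P] at h1
      have h1' : α = [8, 7, 8] ∨ α = [9, 7, 9] ∨ α = [3] := by simpa using h1
      rcases h1' with h | h | h
      · exact Or.inl ⟨8, 1, Or.inl ⟨rfl, rfl⟩, h⟩
      · exact Or.inl ⟨9, 2, Or.inr ⟨rfl, rfl⟩, h⟩
      · exact Or.inr h
    rcases hα with ⟨x, e, hxe, rfl⟩ | rfl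
    · obtain ⟨w12, w3, k1, k2, rfl⟩ := steps_append.mp h2
      obtain ⟨w1, w2, k3, k4, rfl⟩ := steps_append.mp k1
      have e1 := wit_wait hxe k3
        (fun z hz => hw z (List.mem_append_left _ (List.mem_append_left _ hz)))
      have e3 := wit_wait hxe k2 (fun z hz => hw z (List.mem_append_right _ hz))
      obtain ⟨u, hu, e2⟩ := ih k4
        (fun z hz => hw z (List.mem_append_left _ (List.mem_append_right _ hz)))
      refine ⟨e :: u, ?_, ?_⟩
      · intro y hy
        rcases List.mem_cons.mp hy with h | h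
        · rw [h]; omega
        · exact hu y h
      · rw [e1, e2, e3]; simp
    · exact ⟨[], by simp, letter (by omega) h2 hw⟩

theorem pow_wit {x e : ℕ} (hx : (x, [x, x]) ∈ wit.P) (he : (x, [e]) ∈ wit.P) (s : ℕ) :
    wit.Steps (s + 1) [x] (List.replicate (2 ^ s) e) := by
  induction s with
  | zero => exact steps_succ_single.mpr ⟨[e], he, rfl⟩
  | succ s ih =>
    refine steps_succ_single.mpr ⟨[x] ++ [x], hx, ?_⟩
    rw [pow_succ, mul_two, List.replicate_add]
    exact steps_append.mpr ⟨_, _, ih, ih, rfl⟩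

theorem wait_wit {x e : ℕ} (hx : (x, [x]) ∈ wit.P) (he : (x, [e]) ∈ wit.P) (s : ℕ) :
    wit.Steps (s + 1) [x] [e] := by
  induction s with
  | zero => exact steps_succ_single.mpr ⟨[e], he, rfl⟩
  | succ s ih => exact steps_succ_single.mpr ⟨[x], hx, ih⟩

theorem pal_wit {u : List ℕ} (hu : ∀ x ∈ u, x = 1 ∨ x = 2) :
    wit.Steps (u.length + 1) [7] (u ++ [3] ++ u.reverse) := by
  induction u with
  | nil => exact steps_succ_single.mpr ⟨[3], wit_P.mpr (by simp), rfl⟩
  | cons x u ih =>
    have h1 := ih (fun y hy => hu y (List.mem_cons_of_mem _ hy))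
    have key : ∀ y e, (7, [y, 7, y]) ∈ wit.P → (y, [y]) ∈ wit.P → (y, [e]) ∈ wit.P → x = e →
        wit.Steps ((x :: u).length + 1) [7] ((x :: u) ++ [3] ++ (x :: u).reverse) := by
      intro y e g1 g2 g3 hxe
      rw [List.length_cons]
      refine steps_succ_single.mpr ⟨[y] ++ [7] ++ [y], g1, ?_⟩
      rw [show (x :: u) ++ [3] ++ (x :: u).reverse = [e] ++ (u ++ [3] ++ u.reverse) ++ [e] by
        rw [hxe]; simp]
      exact steps_append.mpr ⟨_, _, steps_append.mpr ⟨_, _, wait_wit g2 g3 _, h1, rfl⟩,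
        wait_wit g2 g3 _, rfl⟩
    rcases hu x List.mem_cons_self with h | h
    · exact key 8 1 (wit_P.mpr (by simp)) (wit_P.mpr (by simp)) (wit_P.mpr (by simp)) h
    · exact key 9 2 (wit_P.mpr (by simp)) (wit_P.mpr (by simp)) (wit_P.mpr (by simp)) h

/-- The witness language is an EOL language. -/
theorem wit_lang : wit.lang = W := by
  ext w
  constructor
  · rintro ⟨hT, hreach⟩
    obtain ⟨t, ht⟩ := reach_iff.mp hreach
    cases t with
    | zero =>
      exfalso
      rw [← show [0] = w from ht] at hT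
      have := wit_T.mp (hT 0 (by simp))
      omega
    | succ t =>
      obtain ⟨α, h1, h2⟩ := steps_succ_single.mp ht
      have hα : α = [4] ∨ α = [5] ∨ α = [6] ∨ α = [7] := by
        rw [show wit.S = 0 from rfl, wit_P] at h1
        simpa using h1
      rcases hα with rfl | rfl | rfl | rfl
      · obtain ⟨s, _, h⟩ := wit_pow (x := 4) (e := 1) (Or.inl ⟨rfl, rfl⟩) h2 hT
        exact Or.inr ⟨1, s, by omega, by omega, h⟩
      · obtain ⟨s, _, h⟩ := wit_pow (x := 5) (e := 2) (Or.inr (Or.inl ⟨rfl, rfl⟩)) h2 hT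
        exact Or.inr ⟨2, s, by omega, by omega, h⟩
      · obtain ⟨s, _, h⟩ := wit_pow (x := 6) (e := 3) (Or.inr (Or.inr ⟨rfl, rfl⟩)) h2 hT
        exact Or.inr ⟨3, s, by omega, by omega, h⟩
      · exact Or.inl (wit_pal h2 hT)
  · rintro (⟨u, hu, rfl⟩ | ⟨e, n, h1, h2, rfl⟩)
    · refine ⟨?_, reach_iff.mpr ⟨_, steps_succ_single.mpr ⟨[7], wit_P.mpr (by simp [wit]),
        pal_wit hu⟩⟩⟩
      intro z hz
      rw [List.mem_append, List.mem_append, List.mem_singleton, List.mem_reverse] at hz
      rw [wit_T]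
      rcases hz with (hz | hz) | hz
      · rcases hu z hz with h | h <;> omega
      · omega
      · rcases hu z hz with h | h <;> omega
    · have hT : ∀ z ∈ List.replicate (2 ^ n) e, z ∈ wit.T := by
        intro z hz
        rw [List.eq_of_mem_replicate hz, wit_T]
        omega
      refine ⟨hT, ?_⟩
      obtain rfl | rfl | rfl : e = 1 ∨ e = 2 ∨ e = 3 := by omega
      · exact reach_iff.mpr ⟨_, steps_succ_single.mpr ⟨[4], wit_P.mpr (by simp [wit]),
          pow_wit (wit_P.mpr (by simp)) (wit_P.mpr (by simp)) n⟩⟩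
      · exact reach_iff.mpr ⟨_, steps_succ_single.mpr ⟨[5], wit_P.mpr (by simp [wit]),
          pow_wit (wit_P.mpr (by simp)) (wit_P.mpr (by simp)) n⟩⟩
      · exact reach_iff.mpr ⟨_, steps_succ_single.mpr ⟨[6], wit_P.mpr (by simp [wit]),
          pow_wit (wit_P.mpr (by simp)) (wit_P.mpr (by simp)) n⟩⟩

/-- Main theorem. -/
theorem not_complete {G : EOL} {a : ℕ} (h : LeftForm G a ∨ RightForm G a) : ¬ EOLComplete G := by
  intro hc
  obtain ⟨G', h1, h2⟩ := hc.1 wit
  rw [wit_lang] at h2
  rcases h with h | h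
  · exact core (good_of_interp h h1) h2
  · refine core (good_of_interp (leftForm_rev h) (interp_rev h1)) ?_
    intro w hw
    rw [lang_rev, ← h2 _ (by simpa using hw)]
    constructor
    · exact W_rev
    · intro h
      have := W_rev h
      rwa [List.reverse_reverse] at this

/-- The form listed as open: `S → a, S → S, S → Sa, S → aS, a → a, a → aS` (`S = 0`, `a = 1`). -/
def listed : EOL where
  V := {0, 1}
  T := {1}
  P := {(0, [1]), (0, [0]), (0, [0, 1]), (0, [1, 0]), (1, [1]), (1, [1, 0])}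
  S := 0
  T_sub := by decide
  S_mem := by decide
  S_notMem := by decide
  P_sub := by decide
  total := by
    intro x hx
    simp only [Finset.mem_insert, Finset.mem_singleton] at hx
    rcases hx with rfl | rfl
    · exact ⟨[1], by decide⟩
    · exact ⟨[1], by decide⟩

theorem listed_left : LeftForm listed 1 where
  V_eq := rfl
  T_eq := rfl
  nonerasing := by decide
  fromS := by decide
  froma := by decide
  side := by decide

theorem listed_not_complete : ¬ EOLComplete listed := not_complete (Or.inl listed_left)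

end

theorem result :
    (∀ (G : EOL) (a : ℕ), LeftForm G a ∨ RightForm G a → ¬ EOLComplete G) ∧
    ¬ EOLComplete listed :=
  ⟨fun _ _ h => not_complete h, listed_not_complete⟩

end Pool.Agent.Results.MP_87252e_lc.OneSided
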